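import Mathlib

set_option autoImplicit false

/-! Hankel determinants of analytic functions on a half plane. -/

namespace V1171.TP

open Filter Topology

/-- the open right half plane -/
def RHP : Set ℂ := {s : ℂ | 0 < s.re}

theorem RHP_open : IsOpen RHP := isOpen_lt continuous_const Complex.continuous_re

theorem RHP_conn : IsPreconnected RHP := (convex_halfSpace_re_gt 0).isPreconnected

/-- bounded analytic functions on the half plane -/
def HB (F : ℂ → ℂ) : Prop := DifferentiableOn ℂ F RHP ∧ ∃ C : ℝ, ∀ s ∈ RHP, ‖F s‖ ≤ C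

theorem HB.anal {F : ℂ → ℂ} (h : HB F) : AnalyticOnNhd ℂ F RHP :=
  h.1.analyticOnNhd RHP_open

theorem HB.mul {F G : ℂ → ℂ} (hF : HB F) (hG : HB G) : HB (fun s => F s * G s) := by
  obtain ⟨C, hC⟩ := hF.2
  obtain ⟨C', hC'⟩ := hG.2
  refine ⟨hF.1.mul hG.1, C * C', fun s hs => ?_⟩
  rw [norm_mul]
  exact mul_le_mul (hC s hs) (hC' s hs) (norm_nonneg _) ((norm_nonneg _).trans (hC s hs))

theorem HB.add {F G : ℂ → ℂ} (hF : HB F) (hG : HB G) : HB (fun s => F s + G s) := by
  obtain ⟨C, hC⟩ := hF.2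
  obtain ⟨C', hC'⟩ := hG.2
  exact ⟨hF.1.add hG.1, C + C', fun s hs => (norm_add_le _ _).trans (add_le_add (hC s hs) (hC' s hs))⟩

theorem HB.const (c : ℂ) : HB (fun _ => c) := ⟨differentiableOn_const c, ‖c‖, fun _ _ => le_rfl⟩

theorem HB.shift {F : ℂ → ℂ} (hF : HB F) (a : ℕ) : HB (fun s => F (s + a)) := by
  obtain ⟨C, hC⟩ := hF.2
  have h1 : ∀ s ∈ RHP, s + (a : ℂ) ∈ RHP := by
    intro s hs
    show 0 < (s + (a:ℂ)).re
    have : 0 < s.re := hs
    rw [Complex.add_re, Complex.natCast_re]
    positivity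
  refine ⟨?_, C, fun s hs => hC _ (h1 s hs)⟩
  exact hF.1.comp (by fun_prop) h1

theorem HB.sum {ι : Type} (t : Finset ι) (F : ι → ℂ → ℂ) (h : ∀ i ∈ t, HB (F i)) :
    HB (fun s => ∑ i ∈ t, F i s) := by
  classical
  induction t using Finset.induction_on with
  | empty => simpa using HB.const 0
  | insert i t hi ih =>
    have := (h i (by simp)).add (ih fun j hj => h j (by simp [hj]))
    simpa [Finset.sum_insert hi] using this

theorem HB.prod {ι : Type} (t : Finset ι) (F : ι → ℂ → ℂ) (h : ∀ i ∈ t, HB (F i)) :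
    HB (fun s => ∏ i ∈ t, F i s) := by
  classical
  induction t using Finset.induction_on with
  | empty => simpa using HB.const 1
  | insert i t hi ih =>
    have := (h i (by simp)).mul (ih fun j hj => h j (by simp [hj]))
    simpa [Finset.prod_insert hi] using this

theorem HB.det {n : ℕ} (F : Fin n → Fin n → ℂ → ℂ) (h : ∀ i j, HB (F i j)) :
    HB (fun s => (Matrix.of fun i j => F i j s).det) := by
  have h1 : (fun s => (Matrix.of fun i j => F i j s).det) =
      fun s => ∑ σ : Equiv.Perm (Fin n), ((Equiv.Perm.sign σ : ℤ) : ℂ) * ∏ i, F (σ i) i s := by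
    funext s
    rw [Matrix.det_apply']
    rfl
  rw [h1]
  apply HB.sum
  intro σ _
  apply (HB.const _).mul
  apply HB.prod
  intro i _
  exact h _ _

theorem HB.zero_or {F G : ℂ → ℂ} (hF : HB F) (hG : HB G) (h : ∀ s ∈ RHP, F s * G s = 0) :
    (∀ s ∈ RHP, F s = 0) ∨ (∀ s ∈ RHP, G s = 0) :=
  AnalyticOnNhd.eq_zero_or_eq_zero_of_mul_eq_zero hF.anal hG.anal h RHP_conn

theorem HB.prod_zero {ι : Type} (t : Finset ι) (F : ι → ℂ → ℂ) (h : ∀ i ∈ t, HB (F i))
    (hz : ∀ s ∈ RHP, ∏ i ∈ t, F i s = 0) : ∃ i ∈ t, ∀ s ∈ RHP, F i s = 0 := by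
  classical
  induction t using Finset.induction_on with
  | empty =>
    have := hz 1 (by show 0 < (1:ℂ).re; simp)
    simp at this
  | insert i t hi ih =>
    have h1 : ∀ s ∈ RHP, F i s * ∏ j ∈ t, F j s = 0 := by
      intro s hs
      have h2 := hz s hs
      rw [Finset.prod_insert hi] at h2
      exact h2
    rcases (h i (by simp)).zero_or (HB.prod t F fun j hj => h j (by simp [hj])) h1 with h2 | h2
    · exact ⟨i, by simp, h2⟩
    · obtain ⟨j, hj, h3⟩ := ih (fun j hj => h j (by simp [hj])) h2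
      exact ⟨j, by simp [hj], h3⟩

/-- a bounded analytic function vanishing after a shift vanishes -/
theorem HB.shift_zero {F : ℂ → ℂ} (hF : HB F) (a : ℕ) (h : ∀ s ∈ RHP, F (s + a) = 0) :
    ∀ s ∈ RHP, F s = 0 := by
  have h1 : ((a:ℂ) + 1) ∈ RHP := by
    show 0 < ((a:ℂ) + 1).re
    rw [Complex.add_re, Complex.natCast_re, Complex.one_re]
    positivity
  have h2 : F =ᶠ[𝓝 ((a:ℂ) + 1)] 0 := by
    have h3 : {s : ℂ | (a:ℝ) < s.re} ∈ 𝓝 ((a:ℂ) + 1) := by
      apply (isOpen_lt continuous_const Complex.continuous_re).mem_nhds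
      show (a:ℝ) < ((a:ℂ) + 1).re
      rw [Complex.add_re, Complex.natCast_re, Complex.one_re]
      linarith
    filter_upwards [h3] with s hs
    have h4 : s - a ∈ RHP := by
      show 0 < (s - (a:ℂ)).re
      rw [Complex.sub_re, Complex.natCast_re]
      have : (a:ℝ) < s.re := hs
      linarith
    have := h _ h4
    simpa using this
  exact hF.anal.eqOn_zero_of_preconnected_of_eventuallyEq_zero RHP_conn h1 h2

theorem HB.zeros_countable {F : ℂ → ℂ} (hF : HB F) (h : ¬ ∀ s ∈ RHP, F s = 0) :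
    ({s | F s = 0} ∩ RHP).Countable := by
  rcases hF.anal.eqOn_zero_or_eventually_ne_zero_of_preconnected RHP_conn with h1 | h1
  · exact absurd (fun s hs => h1 hs) h
  · apply (HereditarilyLindelofSpace.isLindelof _).countable_of_isDiscrete
      (isDiscrete_of_codiscreteWithin _)
    exact h1

/-- there is a point all of whose integer translates avoid the zeros -/
theorem HB.good_point {F : ℂ → ℂ} (hF : HB F) (h : ¬ ∀ s ∈ RHP, F s = 0) :
    ∃ s ∈ RHP, ∀ m : ℕ, F (s + m) ≠ 0 := by
  have h1 := hF.zeros_countable h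
  have h2 : (⋃ m : ℕ, (fun s : ℂ => s + m) ⁻¹' ({s | F s = 0} ∩ RHP)).Countable := by
    apply Set.countable_iUnion
    intro m
    exact h1.preimage (add_left_injective (m:ℂ))
  have h3 := h2.dense_compl ℝ
  obtain ⟨s, hs, hs2⟩ := h3.inter_open_nonempty RHP RHP_open ⟨1, by show 0 < (1:ℂ).re; simp⟩
  refine ⟨s, hs, fun m hm => hs2 ?_⟩
  rw [Set.mem_iUnion]
  refine ⟨m, hm, ?_⟩
  show 0 < (s + (m:ℂ)).re
  have : 0 < s.re := hs
  rw [Complex.add_re, Complex.natCast_re]
  positivity

/-- Hankel determinants -/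
noncomputable def hank (a : ℂ → ℂ) (n : ℕ) (s : ℂ) : ℂ :=
  (Matrix.of fun b c : Fin n => a (s + ((b : ℕ) + (c : ℕ) : ℕ))).det

theorem HB.hank {a : ℂ → ℂ} (ha : HB a) (n : ℕ) : HB (hank a n) := by
  unfold V1171.TP.hank
  exact HB.det (fun b c s => a (s + ((b : ℕ) + (c : ℕ) : ℕ))) fun b c => ha.shift _

/-- the linear algebra of sequences with vanishing Hankel determinants -/
theorem rec_of_hank (n : ℕ) (x : ℕ → ℂ)
    (h0 : ∀ m, (Matrix.of fun b c : Fin (n + 1) => x (m + ((b : ℕ) + (c : ℕ)))).det = 0)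
    (h1 : ∀ m, (Matrix.of fun b c : Fin n => x (m + ((b : ℕ) + (c : ℕ)))).det ≠ 0) :
    ∃ C : Fin (n + 1) → ℂ, C ≠ 0 ∧ ∀ m, ∑ j, C j * x (m + (j : ℕ)) = 0 := by
  set v : ℕ → Fin (n + 1) → ℂ := fun m j => x (m + (j : ℕ)) with hv
  set W : ℕ → Submodule ℂ (Fin (n + 1) → ℂ) := fun m =>
    Submodule.span ℂ (Set.range fun i : Fin n => v (m + (i : ℕ))) with hW
  have hli : ∀ m, LinearIndependent ℂ (fun i : Fin n => v (m + (i : ℕ))) := by
    intro m
    have h2 := Matrix.linearIndependent_rows_of_det_ne_zero (h1 m)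
    set R : (Fin (n + 1) → ℂ) →ₗ[ℂ] (Fin n → ℂ) := LinearMap.funLeft ℂ ℂ Fin.castSucc with hR
    apply LinearIndependent.of_comp R
    have h3 : (R ∘ fun i : Fin n => v (m + (i : ℕ))) =
        fun i => (Matrix.of fun b c : Fin n => x (m + ((b : ℕ) + (c : ℕ)))) i := by
      funext i j
      show v (m + (i : ℕ)) (Fin.castSucc j) = x (m + ((i : ℕ) + (j : ℕ)))
      rw [hv]
      simp only [Fin.val_castSucc]
      rw [add_assoc]
    rw [h3]
    exact h2
  have hmem : ∀ m, v (m + n) ∈ W m := by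
    intro m
    by_contra hcon
    have h2 : LinearIndependent ℂ (fun i : Fin (n + 1) => v (m + (i : ℕ))) := by
      rw [linearIndependent_finSucc']
      refine ⟨?_, ?_⟩
      · exact hli m
      · exact hcon
    have h3 : (Matrix.of fun b c : Fin (n + 1) => x (m + ((b : ℕ) + (c : ℕ)))).det ≠ 0 := by
      intro h4
      obtain ⟨u, hu, hu2⟩ := Matrix.exists_vecMul_eq_zero_iff.mpr h4
      apply hu
      rw [Fintype.linearIndependent_iff] at h2
      funext i
      refine h2 u ?_ i
      funext j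
      have := congrFun hu2 j
      rw [Matrix.vecMul, dotProduct] at this
      rw [Finset.sum_apply]
      simpa [hv, add_assoc] using this
    exact h3 (h0 m)
  have hsucc : ∀ m, W (m + 1) = W m := by
    intro m
    apply Submodule.eq_of_le_of_finrank_eq
    · rw [hW]
      simp only
      rw [Submodule.span_le]
      rintro _ ⟨i, rfl⟩
      by_cases hi : (i : ℕ) + 1 < n
      · apply Submodule.subset_span
        refine ⟨⟨(i : ℕ) + 1, hi⟩, ?_⟩
        show v (m + ((i : ℕ) + 1)) = v (m + 1 + (i : ℕ))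
        congr 1
        omega
      · have h2 : m + 1 + (i : ℕ) = m + n := by
          have := i.isLt
          omega
        show v (m + 1 + (i : ℕ)) ∈ W m
        rw [h2]
        exact hmem m
    · rw [hW]
      simp only
      rw [finrank_span_eq_card (hli (m + 1)), finrank_span_eq_card (hli m)]
  have hall : ∀ m, W m = W 0 := by
    intro m
    induction m with
    | zero => rfl
    | succ m ih => rw [hsucc, ih]
  have hv0 : ∀ m, v m ∈ W 0 := by
    intro m
    by_cases hm : m < n
    · apply Submodule.subset_span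
      exact ⟨⟨m, hm⟩, by simp⟩
    · obtain ⟨k, rfl⟩ := Nat.exists_eq_add_of_le (not_lt.mp hm)
      rw [add_comm n k, ← hall k]
      exact hmem k
  have hlt : W 0 < ⊤ := by
    rw [lt_top_iff_ne_top]
    intro h2
    have h3 : Module.finrank ℂ (W 0) = n := by
      rw [hW]
      simp only
      rw [finrank_span_eq_card (hli 0), Fintype.card_fin]
    rw [h2, finrank_top, Module.finrank_fin_fun] at h3
    omega
  obtain ⟨f, hf, hf2⟩ := Submodule.exists_le_ker_of_lt_top (W 0) hlt
  refine ⟨fun j => f (Pi.single j 1), ?_, fun m => ?_⟩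
  · intro h2
    apply hf
    apply LinearMap.pi_ext'
    intro j
    ext
    exact congrFun h2 j
  · have h2 : f (v m) = 0 := hf2 (hv0 m)
    rw [LinearMap.pi_apply_eq_sum_univ f (v m)] at h2
    rw [← h2]
    apply Finset.sum_congr rfl
    intro j _
    have h3 : (Pi.single j 1 : Fin (n + 1) → ℂ) = fun i => if j = i then 1 else 0 := by
      funext i
      rw [Pi.single_apply]
      simp [eq_comm]
    rw [smul_eq_mul, mul_comm]
    simp only [h3]
    rfl

/-- **Kronecker type lemma** on the half plane. -/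
theorem kron {a : ℂ → ℂ} (ha : HB a) : ∀ n : ℕ, (∀ s ∈ RHP, hank a n s = 0) →
    ∃ s ∈ RHP, ∃ N : ℕ, ∃ C : Fin (N + 1) → ℂ, C ≠ 0 ∧
      ∀ m : ℕ, ∑ j, C j * a (s + (m + (j : ℕ) : ℕ)) = 0 := by
  intro n
  induction n with
  | zero =>
    intro h
    have := h 1 (by show 0 < (1:ℂ).re; simp)
    simp [hank] at this
  | succ n ih =>
    intro h
    by_cases hn : ∀ s ∈ RHP, hank a n s = 0
    · exact ih hn
    · obtain ⟨s, hs, hs2⟩ := (ha.hank n).good_point hn
      refine ⟨s, hs, n, ?_⟩
      apply rec_of_hank n (fun k => a (s + (k : ℕ)))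
      · intro m
        have h1 : s + (m : ℂ) ∈ RHP := by
          show 0 < (s + (m:ℂ)).re
          have : 0 < s.re := hs
          rw [Complex.add_re, Complex.natCast_re]
          positivity
        have h2 := h _ h1
        unfold hank at h2
        rw [← h2]
        congr 1
        ext b c
        simp only [Matrix.of_apply]
        congr 1
        push_cast
        ring
      · intro m
        have h2 := hs2 m
        unfold hank at h2
        intro h3
        apply h2
        rw [← h3]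
        congr 1
        ext b c
        simp only [Matrix.of_apply]
        congr 1
        push_cast
        ring

end V1171.TP
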