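import Pool.Agent.V1171.TP.Lue2
import Pool.Agent.V1171.TP.Han
import Pool.Agent.Helper777.PP.P_carlson

set_option autoImplicit false

namespace V1171.TP

open MeasureTheory Metric Topology Filter
open scoped ComplexConjugate ENNReal

/-- normalised area measure on the unit disc -/
noncomputable def discArea : Measure ℂ :=
  (ENNReal.ofReal Real.pi)⁻¹ • volume.restrict (ball (0:ℂ) 1)

theorem pi_ne : (ENNReal.ofReal Real.pi)⁻¹ ≠ 0 := by
  rw [Ne, ENNReal.inv_eq_zero]
  exact ENNReal.ofReal_ne_top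

theorem pi_ne_top : (ENNReal.ofReal Real.pi)⁻¹ ≠ ∞ := by
  rw [Ne, ENNReal.inv_eq_top, ENNReal.ofReal_eq_zero, not_le]
  exact Real.pi_pos

theorem discArea_eq : discArea = (ENNReal.ofReal Real.pi)⁻¹ • area := rfl

instance : IsFiniteMeasure discArea := by
  refine ⟨?_⟩
  rw [discArea_eq, Measure.smul_apply, smul_eq_mul]
  exact ENNReal.mul_lt_top (lt_top_iff_ne_top.mpr pi_ne_top) (measure_lt_top _ _)

theorem disc_ae {p : ℂ → Prop} : (∀ᵐ z ∂discArea, p z) ↔ ∀ᵐ z ∂area, p z := by
  rw [discArea_eq]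
  exact Measure.ae_ennreal_smul_measure_iff pi_ne

theorem disc_lt : ∀ᵐ z ∂discArea, ‖z‖ < 1 := disc_ae.mpr area_ae

theorem disc_of_vol {p : ℂ → Prop} (h : ∀ᵐ z, p z) : ∀ᵐ z ∂discArea, p z := by
  rw [disc_ae]
  unfold area
  exact ae_restrict_of_ae h

theorem disc_ne (r : ℝ) : ∀ᵐ z ∂discArea, ‖z‖ ≠ r := by
  apply disc_of_vol
  rw [ae_iff]
  have := Measure.addHaar_sphere (volume : Measure ℂ) 0 r
  convert this using 2
  ext z
  simp

/-- **Finite rank theorem** for the normalised measure. -/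
theorem luecking' (r : ℕ) (w : ℂ → ℂ) (hw : Integrable w discArea)
    (hdet : ∀ l m : Fin (r + 1) → ℕ,
      (Matrix.of fun i j => ∫ z, w z * (z ^ l i * conj z ^ m j) ∂discArea).det = 0) :
    ∀ᵐ z ∂discArea, w z = 0 := by
  set c : ℝ := ((ENNReal.ofReal Real.pi)⁻¹).toReal with hc
  have hc0 : (c : ℂ) ≠ 0 := by
    rw [Ne, Complex.ofReal_eq_zero, hc, ENNReal.toReal_eq_zero_iff]
    rintro (h | h)
    · exact pi_ne h
    · exact pi_ne_top h
  have h1 : Integrable (fun z => (c:ℂ) * w z) area := by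
    apply Integrable.const_mul
    rw [discArea_eq] at hw
    exact (integrable_smul_measure pi_ne pi_ne_top).mp hw
  have h2 := luecking r (fun z => (c:ℂ) * w z) h1 (by
    intro l m
    rw [← hdet l m]
    congr 1
    ext i j
    simp only [Matrix.of_apply]
    rw [discArea_eq, integral_smul_measure, ← hc, ← integral_smul]
    apply integral_congr_ae
    apply Eventually.of_forall
    intro z
    simp only [Complex.real_smul]
    ring)
  rw [disc_ae]
  filter_upwards [h2] with z hz
  exact (mul_eq_zero.mp hz).resolve_left hc0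

/-- complex powers of `|z|²` -/
noncomputable def EE (s z : ℂ) : ℂ := Complex.exp (s * ((2 * Real.log ‖z‖ : ℝ) : ℂ))

theorem EE_add (s t z : ℂ) : EE (s + t) z = EE s z * EE t z := by
  unfold EE
  rw [add_mul, Complex.exp_add]

theorem EE_nat (k : ℕ) (z : ℂ) (hz : z ≠ 0) : EE k z = (z * conj z) ^ k := by
  have h1 : 0 < ‖z‖ := norm_pos_iff.mpr hz
  unfold EE
  rw [Complex.exp_nat_mul, ← Complex.ofReal_exp, Complex.mul_conj, Complex.normSq_eq_norm_sq]
  congr 2
  rw [two_mul, Real.exp_add, Real.exp_log h1, sq]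

theorem EE_ne (s z : ℂ) : EE s z ≠ 0 := Complex.exp_ne_zero _

theorem EE_norm (s z : ℂ) : ‖EE s z‖ = Real.exp (s.re * (2 * Real.log ‖z‖)) := by
  unfold EE
  rw [Complex.norm_exp, Complex.re_mul_ofReal]

theorem EE_le (s z : ℂ) (hs : 0 ≤ s.re) (hz : ‖z‖ ≤ 1) : ‖EE s z‖ ≤ 1 := by
  rw [EE_norm, Real.exp_le_one_iff]
  have : Real.log ‖z‖ ≤ 0 := Real.log_nonpos (norm_nonneg _) hz
  nlinarith

theorem EE_meas (s : ℂ) : Measurable (EE s) := by
  unfold EE
  apply Complex.measurable_exp.comp
  apply Measurable.const_mul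
  apply Complex.measurable_ofReal.comp
  apply Measurable.const_mul
  exact Real.measurable_log.comp measurable_norm

/-- moments -/
noncomputable def mom (w : ℂ → ℂ) (s : ℂ) : ℂ := ∫ z, w z * EE s z ∂discArea

theorem mom_int (w : ℂ → ℂ) (hw : Integrable w discArea) (s : ℂ) (hs : 0 ≤ s.re) :
    Integrable (fun z => w z * EE s z) discArea := by
  refine hw.norm.mono' (hw.aestronglyMeasurable.mul (EE_meas s).aestronglyMeasurable) ?_
  filter_upwards [disc_lt] with z hz
  rw [norm_mul]
  exact mul_le_of_le_one_right (norm_nonneg _) (EE_le s z hs hz.le)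

theorem mom_HB (w : ℂ → ℂ) (hw : Integrable w discArea) : HB (mom w) := by
  refine ⟨?_, ∫ z, ‖w z‖ ∂discArea, ?_⟩
  · intro s hs
    have hs' : 0 < s.re := hs
    have h1 : {t : ℂ | s.re / 2 < t.re} ∈ 𝓝 s := by
      apply (isOpen_lt continuous_const Complex.continuous_re).mem_nhds
      show s.re / 2 < s.re
      linarith
    have h2 := hasDerivAt_integral_of_dominated_loc_of_deriv_le (μ := discArea) (𝕜 := ℂ)
      (F := fun t z => w z * EE t z)
      (F' := fun t z => w z * (EE t z * ((2 * Real.log ‖z‖ : ℝ) : ℂ)))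
      (bound := fun z => ‖w z‖ * (s.re / 2)⁻¹) (x₀ := s) h1 ?_ (mom_int w hw s hs'.le) ?_ ?_
      (hw.norm.mul_const _) ?_
    · exact h2.2.differentiableAt.differentiableWithinAt
    · apply Eventually.of_forall
      intro t
      exact hw.aestronglyMeasurable.mul (EE_meas t).aestronglyMeasurable
    · apply hw.aestronglyMeasurable.mul
      apply Measurable.aestronglyMeasurable
      apply (EE_meas s).mul
      apply Complex.measurable_ofReal.comp
      apply Measurable.const_mul
      exact Real.measurable_log.comp measurable_norm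
    · filter_upwards [disc_lt] with z hz t ht
      have ht' : s.re / 2 < t.re := ht
      rw [norm_mul, norm_mul, EE_norm, Complex.norm_real, Real.norm_eq_abs]
      apply mul_le_mul_of_nonneg_left _ (norm_nonneg _)
      have hl : Real.log ‖z‖ ≤ 0 := Real.log_nonpos (norm_nonneg _) hz.le
      set L := -(2 * Real.log ‖z‖) with hL
      have hL0 : 0 ≤ L := by rw [hL]; linarith
      have h3 : |2 * Real.log ‖z‖| = L := by
        rw [abs_of_nonpos (by linarith)]
      rw [h3]
      have hd : 0 < s.re / 2 := by linarith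
      have h4 : Real.exp (t.re * (2 * Real.log ‖z‖)) ≤ Real.exp (-(s.re / 2 * L)) := by
        apply Real.exp_le_exp.mpr
        rw [hL]
        nlinarith
      have h5 : s.re / 2 * L ≤ Real.exp (s.re / 2 * L) := by
        have := Real.add_one_le_exp (s.re / 2 * L)
        linarith
      calc Real.exp (t.re * (2 * Real.log ‖z‖)) * L ≤ Real.exp (-(s.re / 2 * L)) * L :=
            mul_le_mul_of_nonneg_right h4 hL0
        _ = (s.re / 2)⁻¹ * (Real.exp (-(s.re / 2 * L)) * (s.re / 2 * L)) := by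
            field_simp
        _ ≤ (s.re / 2)⁻¹ * (Real.exp (-(s.re / 2 * L)) * Real.exp (s.re / 2 * L)) := by
            apply mul_le_mul_of_nonneg_left _ (by positivity)
            exact mul_le_mul_of_nonneg_left h5 (Real.exp_pos _).le
        _ = (s.re / 2)⁻¹ := by
            rw [← Real.exp_add]
            simp
    · apply Eventually.of_forall
      intro z t _
      apply HasDerivAt.const_mul
      unfold EE
      have h3 : HasDerivAt (fun t : ℂ => t * ((2 * Real.log ‖z‖ : ℝ) : ℂ))
          ((2 * Real.log ‖z‖ : ℝ) : ℂ) t := by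
        simpa using (hasDerivAt_id t).mul_const ((2 * Real.log ‖z‖ : ℝ) : ℂ)
      exact h3.cexp
  · intro s hs
    have hs' : 0 < s.re := hs
    unfold mom
    apply norm_integral_le_of_norm_le hw.norm
    filter_upwards [disc_lt] with z hz
    rw [norm_mul]
    exact mul_le_of_le_one_right (norm_nonneg _) (EE_le s z hs'.le hz.le)

/-- rotations preserve the measure -/
theorem rot_mp (c : ℂ) (hc : ‖c‖ = 1) : MeasurePreserving (fun z => c * z) discArea discArea := by
  have hc' : c ∈ Submonoid.unitSphere ℂ := by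
    rw [Submonoid.unitSphere]
    simpa using hc
  have h1 : MeasurePreserving (fun z : ℂ => c * z) volume volume :=
    (rotation (⟨c, hc'⟩ : Circle)).measurePreserving
  have h2 := h1.restrict_preimage (s := ball (0:ℂ) 1) measurableSet_ball
  have h3 : (fun z : ℂ => c * z) ⁻¹' ball (0:ℂ) 1 = ball 0 1 := by
    ext z
    simp [hc]
  rw [h3] at h2
  exact h2.smul_measure (ENNReal.ofReal Real.pi)⁻¹

theorem rot_int (c : ℂ) (hc : ‖c‖ = 1) (F : ℂ → ℂ) :
    ∫ z, F (c * z) ∂discArea = ∫ z, F z ∂discArea := by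
  have hc0 : c ≠ 0 := by
    intro h
    rw [h, norm_zero] at hc
    exact zero_ne_one hc
  exact (rot_mp c hc).integral_comp (Homeomorph.mulLeft₀ c hc0).measurableEmbedding F

/-- orthogonality of angular frequencies -/
theorem rad_orth (W : ℝ → ℂ) (p q : ℕ) (hpq : p ≠ q) :
    ∫ z, W ‖z‖ * (z ^ p * conj z ^ q) ∂discArea = 0 := by
  set θ : ℝ := Real.pi / ((p:ℝ) - q) with hθ
  have hne : (p:ℝ) - q ≠ 0 := by
    rw [sub_ne_zero]
    exact_mod_cast hpq
  set c : ℂ := Complex.exp (θ * Complex.I) with hc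
  have hc1 : ‖c‖ = 1 := Complex.norm_exp_ofReal_mul_I θ
  have hcc : c ^ p * conj c ^ q = -1 := by
    rw [hc, ← Complex.exp_conj, map_mul, Complex.conj_ofReal, Complex.conj_I, ← Complex.exp_nat_mul,
      ← Complex.exp_nat_mul, ← Complex.exp_add, ← Complex.exp_pi_mul_I]
    congr 1
    have h1 : ((p:ℝ) - q) * θ = Real.pi := by
      rw [hθ]
      field_simp
    have h2 : (((p:ℝ) - q) * θ : ℂ) = Real.pi := by exact_mod_cast h1
    rw [← h2]
    push_cast
    ring
  have h1 := rot_int c hc1 (fun z => W ‖z‖ * (z ^ p * conj z ^ q))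
  have h2 : ∀ z : ℂ, W ‖c * z‖ * ((c * z) ^ p * conj (c * z) ^ q) =
      -1 * (W ‖z‖ * (z ^ p * conj z ^ q)) := by
    intro z
    rw [norm_mul, hc1, one_mul, map_mul, mul_pow, mul_pow, ← hcc]
    ring
  simp_rw [h2] at h1
  rw [integral_const_mul] at h1
  have h3 : (2:ℂ) * ∫ z, W ‖z‖ * (z ^ p * conj z ^ q) ∂discArea = 0 := by
    linear_combination -h1
  exact (mul_eq_zero.mp h3).resolve_left two_ne_zero

theorem rad_diag (w : ℂ → ℂ) (m : ℕ) :
    ∫ z, w z * (z ^ m * conj z ^ m) ∂discArea = mom w m := by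
  unfold mom
  apply integral_congr_ae
  filter_upwards [disc_ne 0] with z hz
  rw [EE_nat m z (by simpa using hz), mul_pow]

/-- a radial integrable function with vanishing moments vanishes -/
theorem rad_zero (W : ℝ → ℂ) (hW : Integrable (fun z => W ‖z‖) discArea)
    (h : ∀ m : ℕ, mom (fun z => W ‖z‖) m = 0) : ∀ᵐ z ∂discArea, W ‖z‖ = 0 := by
  apply luecking' 0 (fun z => W ‖z‖) hW
  intro l m
  refine Eq.trans (Matrix.det_fin_one _) ?_
  rw [Matrix.of_apply]
  by_cases hlm : l 0 = m 0
  · rw [hlm, rad_diag, h]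
  · exact rad_orth W _ _ hlm

theorem hank_zero (W : ℝ → ℂ) (hW : Integrable (fun z => W ‖z‖) discArea) (n : ℕ)
    (h : ∀ s ∈ RHP, hank (mom (fun z => W ‖z‖)) n s = 0) : ∀ᵐ z ∂discArea, W ‖z‖ = 0 := by
  obtain ⟨s, hs, N, C, hC, hrec⟩ := kron (mom_HB _ hW) n h
  have hs' : 0 < s.re := hs
  set P : Polynomial ℂ := ∑ j : Fin (N + 1), Polynomial.C (C j) * Polynomial.X ^ (j : ℕ) with hP
  have hP0 : P ≠ 0 := by
    intro h0
    apply hC
    funext j
    have h1 : P.coeff (j : ℕ) = C j := by
      rw [hP, Polynomial.finsetSum_coeff]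
      rw [Finset.sum_eq_single j]
      · simp
      · intro i _ hij
        rw [Polynomial.coeff_C_mul_X_pow, if_neg]
        intro h2
        exact hij (Fin.ext h2.symm)
      · intro h2
        exact absurd (Finset.mem_univ j) h2
    rw [← h1, h0]
    simp
  set V : ℝ → ℂ := fun t => W t * Complex.exp (s * ((2 * Real.log t : ℝ) : ℂ)) *
    P.eval ((t ^ 2 : ℝ) : ℂ) with hV
  have hVe : ∀ z : ℂ, V ‖z‖ = W ‖z‖ * EE s z * P.eval (((‖z‖ ^ 2 : ℝ)) : ℂ) := fun z => rfl
  have hPe : ∀ z : ℂ, P.eval (((‖z‖ ^ 2 : ℝ)) : ℂ) = ∑ j, C j * (z * conj z) ^ (j : ℕ) := by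
    intro z
    rw [hP, Polynomial.eval_finsetSum]
    apply Finset.sum_congr rfl
    intro j _
    rw [Polynomial.eval_mul, Polynomial.eval_C, Polynomial.eval_pow, Polynomial.eval_X,
      Complex.mul_conj, Complex.normSq_eq_norm_sq]
  have hVm : ∀ m : ℕ, ∀ᵐ z ∂discArea, V ‖z‖ * EE m z =
      ∑ j, C j * (W ‖z‖ * EE (s + (m + (j : ℕ) : ℕ)) z) := by
    intro m
    filter_upwards [disc_ne 0] with z hz
    have hz0 : z ≠ 0 := by simpa using hz
    rw [hVe, hPe, Finset.mul_sum, Finset.sum_mul]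
    apply Finset.sum_congr rfl
    intro j _
    rw [EE_add, Nat.cast_add, EE_add, EE_nat _ z hz0, EE_nat _ z hz0]
    ring
  have hIj : ∀ k : ℕ, Integrable (fun z => W ‖z‖ * EE (s + k) z) discArea := by
    intro k
    apply mom_int _ hW
    rw [Complex.add_re, Complex.natCast_re]
    positivity
  have hVint : Integrable (fun z => V ‖z‖) discArea := by
    have h1 : Integrable (fun z => ∑ j : Fin (N + 1), C j * (W ‖z‖ * EE (s + (j : ℕ)) z)) discArea :=
      integrable_finsetSum _ fun j _ => (hIj _).const_mul _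
    refine h1.congr ?_
    filter_upwards [hVm 0] with z hz
    simp only [Nat.cast_zero, zero_add] at hz
    rw [← hz]
    unfold EE
    simp
  have h1 := rad_zero V hVint (by
    intro m
    unfold mom
    rw [integral_congr_ae (hVm m), integral_finsetSum _ fun j _ => (hIj _).const_mul _]
    simp_rw [integral_const_mul]
    exact hrec m)
  have h2 : ∀ᵐ z ∂discArea, P.eval (((‖z‖ ^ 2 : ℝ)) : ℂ) ≠ 0 := by
    have h3 : ∀ᵐ z ∂discArea, ∀ a ∈ (P.roots.toFinset : Set ℂ), ‖z‖ ≠ Real.sqrt a.re := by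
      rw [ae_ball_iff P.roots.toFinset.countable_toSet]
      intro a _
      exact disc_ne _
    filter_upwards [h3] with z hz h4
    have h5 := hz (((‖z‖ ^ 2 : ℝ)) : ℂ) (by
      rw [Finset.mem_coe, Multiset.mem_toFinset, Polynomial.mem_roots hP0]
      exact h4)
    apply h5
    rw [Complex.ofReal_re, Real.sqrt_sq (norm_nonneg _)]
  filter_upwards [h1, h2] with z hz hz2
  rw [hVe] at hz
  have h3 := (mul_eq_zero.mp hz).resolve_right hz2
  exact (mul_eq_zero.mp h3).resolve_right (EE_ne s z)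

/-- **Analytic core.** -/
theorem ana_core (n r : ℕ) (W : ℝ → ℂ) (g : ℂ → ℂ)
    (hW : Integrable (fun z => W ‖z‖) discArea) (hg : Integrable g discArea)
    (H : ∀ l m : Fin (r + 1) → ℕ,
      (∏ j, hank (mom (fun z => W ‖z‖)) n (m j)) *
        (Matrix.of fun i j => ∫ z, g z * (z ^ l i * conj z ^ m j) ∂discArea).det = 0) :
    (∀ᵐ z ∂discArea, W ‖z‖ = 0) ∨ (∀ᵐ z ∂discArea, g z = 0) := by
  by_cases hf0 : ∀ᵐ z ∂discArea, W ‖z‖ = 0
  · exact Or.inl hf0
  right
  have hHB := mom_HB _ hW
  have hnz : ¬ ∀ s ∈ RHP, hank (mom (fun z => W ‖z‖)) n s = 0 := fun h =>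
    hf0 (hank_zero W hW n h)
  have hmon : ∀ (l m : ℕ), Integrable (fun z => g z * (z ^ l * conj z ^ m)) discArea := by
    intro l m
    refine hg.norm.mono' (hg.aestronglyMeasurable.mul
      (by fun_prop : Continuous fun z : ℂ => z ^ l * conj z ^ m).aestronglyMeasurable) ?_
    filter_upwards [disc_lt] with z hz
    rw [norm_mul, norm_mul, norm_pow, norm_pow, RCLike.norm_conj]
    apply mul_le_of_le_one_right (norm_nonneg _)
    exact mul_le_one₀ (pow_le_one₀ (norm_nonneg _) hz.le) (pow_nonneg (norm_nonneg _) _)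
      (pow_le_one₀ (norm_nonneg _) hz.le)
  have key : ∀ l m : Fin (r + 1) → ℕ, ∀ s ∈ RHP,
      (Matrix.of fun i j => mom (fun z => g z * (z ^ l i * conj z ^ m j)) s).det = 0 := by
    intro l m
    set Φ1 : ℂ → ℂ := fun s => ∏ j, hank (mom (fun z => W ‖z‖)) n (s + (m j : ℕ)) with hΦ1
    set Φ2 : ℂ → ℂ := fun s =>
      (Matrix.of fun i j => mom (fun z => g z * (z ^ l i * conj z ^ m j)) s).det with hΦ2
    have hb1 : HB Φ1 := HB.prod _ _ fun j _ => (hHB.hank n).shift _
    have hb2 : HB Φ2 := HB.det _ fun i j => mom_HB _ (hmon _ _)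
    have hb := hb1.mul hb2
    obtain ⟨C, hC⟩ := hb.2
    have hC0 : 0 ≤ C := (norm_nonneg _).trans (hC 1 (by show 0 < (1:ℂ).re; simp))
    have hcarl := Pool.PlanePD.carlson (fun s => Φ1 s * Φ2 s) hb.1 C 0 (by
      intro w hw
      rw [pow_zero, mul_one]
      apply hC
      show 0 < w.re
      linarith) 0 (by
      apply Eventually.of_forall
      intro t
      rw [zero_add]
      have h1 := H (fun i => l i + t) (fun j => m j + t)
      have h2 : Φ1 t = ∏ j, hank (mom (fun z => W ‖z‖)) n ((m j + t : ℕ) : ℂ) := by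
        rw [hΦ1]
        simp only
        apply Finset.prod_congr rfl
        intro j _
        congr 1
        push_cast
        ring
      have h3 : Φ2 t = (Matrix.of fun i j : Fin (r + 1) =>
          ∫ z, g z * (z ^ (l i + t) * conj z ^ (m j + t)) ∂discArea).det := by
        rw [hΦ2]
        simp only
        congr 1
        ext i j
        simp only [Matrix.of_apply]
        unfold mom
        apply integral_congr_ae
        filter_upwards [disc_ne 0] with z hz
        rw [EE_nat t z (by simpa using hz), mul_pow, pow_add, pow_add]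
        ring
      rw [h2, h3]
      exact h1)
    rcases hb1.zero_or hb2 (fun s hs => hcarl s hs) with h1 | h1
    · exfalso
      obtain ⟨j, _, hj⟩ := HB.prod_zero Finset.univ
        (fun j s => hank (mom (fun z => W ‖z‖)) n (s + (m j : ℕ)))
        (fun j _ => (hHB.hank n).shift _) h1
      exact hnz ((hHB.hank n).shift_zero (m j) hj)
    · exact h1
  have hw : Integrable (fun z => g z * (z * conj z)) discArea := by
    have := hmon 1 1
    simpa using this
  have h1 := luecking' r (fun z => g z * (z * conj z)) hw (by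
    intro l m
    rw [← key l m 1 (by show 0 < (1:ℂ).re; simp)]
    congr 1
    ext i j
    simp only [Matrix.of_apply]
    unfold mom
    apply integral_congr_ae
    filter_upwards [disc_ne 0] with z hz
    have h2 := EE_nat 1 z (by simpa using hz)
    rw [Nat.cast_one, pow_one] at h2
    rw [h2]
    ring)
  filter_upwards [h1, disc_ne 0] with z hz hz2
  have hz0 : z ≠ 0 := by simpa using hz2
  have h2 : z * conj z ≠ 0 := mul_ne_zero hz0 (by rwa [Ne, map_eq_zero])
  exact (mul_eq_zero.mp hz).resolve_right h2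

end V1171.TP
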