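import Pool.Agent.V1171.TP.Hil

set_option autoImplicit false

namespace V1171.TP

open MeasureTheory Metric Topology Filter
open scoped ComplexConjugate ENNReal

/-- finite rank version with functions on the ambient space -/
theorem final2 (A : Submodule ℂ L2D) [A.HasOrthogonalProjection] (n : ℕ) (hn : 1 ≤ n)
    (hmem : ∀ a b, b < n → mono a b ∈ A)
    (hBL : ∀ (f : LinfD) (W : ℝ → ℂ) (_ : f =ᵐ[discArea] fun z => W ‖z‖) (m : ℕ),
      ∃ κ : Fin n → ℂ, ∀ h ∈ A, hank (mom (fun z => W ‖z‖)) n m *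
      ∫ z, (h : L2D) z * conj z ^ m ∂discArea =
      ∑ c, κ c * ∫ z, W ‖z‖ * (h : L2D) z * (conj z ^ (m + (c : ℕ)) * z ^ (c : ℕ)) ∂discArea)
    (f g : LinfD)
    (hrad : (∃ W : ℝ → ℂ, f =ᵐ[discArea] fun z => W ‖z‖) ∨
      (∃ W : ℝ → ℂ, g =ᵐ[discArea] fun z => W ‖z‖))
    (V : Submodule ℂ L2D) (hV : FiniteDimensional ℂ V)
    (hT : ∀ h ∈ A, A.starProjection (mulOp f (A.starProjection (mulOp g h))) ∈ V) :
    f = 0 ∨ g = 0 := by
  refine final A n hn hmem hBL f g hrad ?_
  have h1 : LinearMap.range (toep A f ∘ₗ toep A g) ≤ V.comap A.subtype := by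
    rintro _ ⟨h, rfl⟩
    exact hT h h.2
  have h2 : FiniteDimensional ℂ (V.comap A.subtype) := by
    apply FiniteDimensional.of_injective
      ((A.subtype).restrict (p := V.comap A.subtype) (q := V) fun x hx => hx)
    intro x y hxy
    apply Subtype.ext
    apply Subtype.ext
    have h3 : ((((A.subtype).restrict (p := V.comap A.subtype) (q := V) fun x hx => hx) x : V) : L2D) =
      ((((A.subtype).restrict (p := V.comap A.subtype) (q := V) fun x hx => hx) y : V) : L2D) :=
      congrArg Subtype.val hxy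
    exact h3
  exact Submodule.finiteDimensional_of_le h1

instance (n : ℕ) : CompleteSpace (polyB n) := by
  unfold polyB
  infer_instance

theorem final3 (n : ℕ) (hn : 1 ≤ n) (f g : LinfD)
    (hrad : (∃ W : ℝ → ℂ, f =ᵐ[discArea] fun z => W ‖z‖) ∨
      (∃ W : ℝ → ℂ, g =ᵐ[discArea] fun z => W ‖z‖))
    (V : Submodule ℂ L2D) (hV : FiniteDimensional ℂ V)
    (hT : ∀ h ∈ polyB n,
      (polyB n).starProjection (mulOp f ((polyB n).starProjection (mulOp g h))) ∈ V) :
    f = 0 ∨ g = 0 := by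
  refine final2 (polyB n) n hn ?_ (fun f W hW m => BL n f W hW m) f g hrad V hV hT
  intro a b hb
  apply Submodule.le_topologicalClosure
  apply Submodule.subset_span
  exact ⟨a, b, hb, mono_ae a b⟩

end V1171.TP
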