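import Pool.Agent.V1171.TP.Base

set_option autoImplicit false

namespace V1171.TP

open MeasureTheory Metric Topology Filter
open scoped ComplexConjugate ENNReal

/-- `L²` of the disc -/
abbrev L2D : Type := Lp ℂ 2 discArea

/-- `L^∞` of the disc -/
abbrev LinfD : Type := Lp ℂ ∞ discArea

/-- multiplication by a bounded function -/
noncomputable def mulOp (f : LinfD) : L2D →ₗ[ℂ] L2D where
  toFun h := f • h
  map_add' h k := Lp.add_smul f h k
  map_smul' c h := (Lp.smul_comm c f h).symm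

/-- the Toeplitz operator `h ↦ P (f h)` on a closed subspace -/
noncomputable def toep (A : Submodule ℂ L2D) [A.HasOrthogonalProjection] (f : LinfD) : A →ₗ[ℂ] A :=
  (A.orthogonalProjectionOnto : L2D →ₗ[ℂ] A) ∘ₗ mulOp f ∘ₗ A.subtype

theorem inner_int (u v : L2D) : inner ℂ u v = ∫ z, v z * conj (u z) ∂discArea := by
  rw [L2.inner_def]
  apply integral_congr_ae
  apply Eventually.of_forall
  intro z
  exact RCLike.inner_apply _ _

variable (A : Submodule ℂ L2D) [A.HasOrthogonalProjection]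

theorem toep_inner (f : LinfD) (u v : A) :
    inner ℂ v (toep A f u) = ∫ z, f z * (u : L2D) z * conj ((v : L2D) z) ∂discArea := by
  have h1 : inner ℂ v (toep A f u) = inner ℂ (v : L2D) (mulOp f (u : L2D)) :=
    Submodule.inner_orthogonalProjectionOnto_eq_of_mem_left v _
  rw [h1, inner_int]
  apply integral_congr_ae
  have h2 : (mulOp f (u : L2D) : L2D) =ᵐ[discArea] ⇑f • ⇑(u : L2D) := Lp.coeFn_lpSMul f (u : L2D)
  filter_upwards [h2] with z hz
  rw [hz]
  rfl

theorem toep_adj (f fb : LinfD) (hfb : fb =ᵐ[discArea] fun z => conj (f z)) (u v : A) :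
    inner ℂ v (toep A f u) = inner ℂ (toep A fb v) u := by
  rw [← inner_conj_symm (toep A fb v) u, toep_inner, toep_inner, ← integral_conj]
  apply integral_congr_ae
  filter_upwards [hfb] with z hz
  rw [hz, map_mul, map_mul, Complex.conj_conj, Complex.conj_conj]
  ring

theorem star_det (L : A →ₗ[ℂ] A) [hL : FiniteDimensional ℂ (LinearMap.range L)]
    (u v : Fin (Module.finrank ℂ (LinearMap.range L) + 1) → A) :
    (Matrix.of fun i j => inner ℂ (v j) (L (u i))).det = 0 := by
  have h1 : ¬ LinearIndependent ℂ (fun i => (⟨L (u i), LinearMap.mem_range_self L (u i)⟩ :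
      LinearMap.range L)) := by
    intro h
    have := h.fintype_card_le_finrank
    rw [Fintype.card_fin] at this
    omega
  rw [Fintype.not_linearIndependent_iff] at h1
  obtain ⟨c, hc, i, hi⟩ := h1
  apply Matrix.exists_vecMul_eq_zero_iff.mp
  refine ⟨c, fun h => hi (congrFun h i), ?_⟩
  have h2 : ∑ i, c i • L (u i) = 0 := by
    have := congrArg (LinearMap.range L).subtype hc
    simpa using this
  funext j
  rw [Matrix.vecMul, dotProduct]
  have h3 : inner ℂ (v j) (∑ i, c i • L (u i)) = 0 := by rw [h2, inner_zero_right]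
  rw [inner_sum] at h3
  rw [Pi.zero_apply, ← h3]
  apply Finset.sum_congr rfl
  intro i _
  exact (inner_smul_right (𝕜 := ℂ) (E := A) (v j) (L (u i)) (c i)).symm

theorem mono_bd (a b : ℕ) : ∀ᵐ z ∂discArea, ‖z ^ a * conj z ^ b‖ ≤ 1 := by
  filter_upwards [disc_lt] with z hz
  rw [norm_mul, norm_pow, norm_pow, RCLike.norm_conj]
  exact mul_le_one₀ (pow_le_one₀ (norm_nonneg _) hz.le) (pow_nonneg (norm_nonneg _) _)
      (pow_le_one₀ (norm_nonneg _) hz.le)

theorem mono_memLp (a b : ℕ) : MemLp (fun z : ℂ => z ^ a * conj z ^ b) 2 discArea :=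
  MemLp.of_bound (by fun_prop : Continuous fun z : ℂ => z ^ a * conj z ^ b).aestronglyMeasurable 1
    (mono_bd a b)

/-- monomials -/
noncomputable def mono (a b : ℕ) : L2D := (mono_memLp a b).toLp _

theorem mono_ae (a b : ℕ) : mono a b =ᵐ[discArea] fun z => z ^ a * conj z ^ b :=
  (mono_memLp a b).coeFn_toLp

/-- **Hilbert space core.** -/
theorem hil_core (n : ℕ) (hn : 1 ≤ n) (f g : LinfD) (W : ℝ → ℂ)
    (hfW : f =ᵐ[discArea] fun z => W ‖z‖)
    (hmem : ∀ a b, b < n → mono a b ∈ A)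
    (hBL : ∀ m : ℕ, ∃ κ : Fin n → ℂ, ∀ h ∈ A, hank (mom (fun z => W ‖z‖)) n m *
      ∫ z, (h : L2D) z * conj z ^ m ∂discArea =
      ∑ c, κ c * ∫ z, W ‖z‖ * (h : L2D) z * (conj z ^ (m + (c : ℕ)) * z ^ (c : ℕ)) ∂discArea)
    (r : ℕ) (hstar : ∀ u v : Fin (r + 1) → A,
      (Matrix.of fun i j => inner ℂ (v j) (toep A f (toep A g (u i)))).det = 0) :
    (∀ᵐ z ∂discArea, W ‖z‖ = 0) ∨ (∀ᵐ z ∂discArea, g z = 0) := by
  have hfint : Integrable f discArea := (Lp.memLp f).integrable le_top
  have hgint : Integrable g discArea := (Lp.memLp g).integrable le_top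
  apply ana_core n r W g (hfint.congr hfW) hgint
  intro l m
  choose κ hκ using hBL
  have h1 := hstar (fun i => ⟨mono (l i) 0, hmem _ _ hn⟩)
    (fun j => ∑ c : Fin n, conj (κ (m j) c) • (⟨mono (m j + (c : ℕ)) c, hmem _ _ c.isLt⟩ : A))
  have h2 : (Matrix.of fun i j => inner ℂ
      (∑ c : Fin n, conj (κ (m j) c) • (⟨mono (m j + (c : ℕ)) c, hmem _ _ c.isLt⟩ : A))
      (toep A f (toep A g (⟨mono (l i) 0, hmem _ _ hn⟩ : A)))) =
      Matrix.of fun i j => hank (mom (fun z => W ‖z‖)) n (m j) *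
        (Matrix.of fun i j => ∫ z, g z * (z ^ l i * conj z ^ m j) ∂discArea) i j := by
    ext i j
    simp only [Matrix.of_apply]
    rw [sum_inner]
    have h3 : ∀ c : Fin n, inner ℂ (conj (κ (m j) c) •
        (⟨mono (m j + (c : ℕ)) c, hmem _ _ c.isLt⟩ : A))
        (toep A f (toep A g (⟨mono (l i) 0, hmem _ _ hn⟩ : A))) =
        κ (m j) c * ∫ z, W ‖z‖ * ((toep A g (⟨mono (l i) 0, hmem _ _ hn⟩ : A) : A) : L2D) z *
          (conj z ^ (m j + (c : ℕ)) * z ^ (c : ℕ)) ∂discArea := by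
      intro c
      refine (inner_smul_left (𝕜 := ℂ) (E := A) _ _ _).trans ?_
      rw [Complex.conj_conj, toep_inner]
      congr 1
      apply integral_congr_ae
      filter_upwards [hfW, mono_ae (m j + (c : ℕ)) c] with z hz hz2
      rw [hz, hz2, map_mul, map_pow, map_pow, Complex.conj_conj]
    simp_rw [h3]
    rw [← hκ (m j) _ (toep A g (⟨mono (l i) 0, hmem _ _ hn⟩ : A)).2]
    congr 1
    have h4 := toep_inner A g ⟨mono (l i) 0, hmem _ _ hn⟩ ⟨mono (m j) 0, hmem _ _ hn⟩
    have h5 : inner ℂ (⟨mono (m j) 0, hmem _ _ hn⟩ : A)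
        (toep A g (⟨mono (l i) 0, hmem _ _ hn⟩ : A)) =
        ∫ z, ((toep A g (⟨mono (l i) 0, hmem _ _ hn⟩ : A) : A) : L2D) z * conj z ^ m j ∂discArea := by
      rw [Submodule.coe_inner, inner_int]
      apply integral_congr_ae
      filter_upwards [mono_ae (m j) 0] with z hz
      rw [hz]
      simp
    rw [← h5, h4]
    apply integral_congr_ae
    filter_upwards [mono_ae (m j) 0, mono_ae (l i) 0] with z hz hz2
    rw [hz, hz2]
    simp only [pow_zero, mul_one, map_pow]
    ring
  rw [h2, Matrix.det_mul_row] at h1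
  exact h1

/-- `A²_n`-type closed subspace : the closure of the polyanalytic polynomials -/
noncomputable def polyB (n : ℕ) : Submodule ℂ L2D :=
  (Submodule.span ℂ {h : L2D | ∃ a b : ℕ, b < n ∧
    h =ᵐ[discArea] fun z => z ^ a * conj z ^ b}).topologicalClosure

theorem wm_memLp (f : LinfD) (W : ℝ → ℂ) (hfW : f =ᵐ[discArea] fun z => W ‖z‖) (a b : ℕ) :
    MemLp (fun z : ℂ => conj (W ‖z‖) * (z ^ a * conj z ^ b)) 2 discArea := by
  have h1 : MemLp (fun z : ℂ => conj (W ‖z‖)) ∞ discArea :=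
    ((Lp.memLp f).ae_eq hfW).star
  exact (mono_memLp a b).mul h1

/-- the algebraic identity behind the block lemma -/
theorem block_alg (n : ℕ) (a G : ℕ → ℂ) (m : ℕ) (b : Fin n) :
    (Matrix.of fun b c : Fin n => a (m + ((b : ℕ) + (c : ℕ)))).det * G b =
    ∑ c, (Matrix.vecMul (fun b : Fin n => G b)
      (Matrix.of fun b c : Fin n => a (m + ((b : ℕ) + (c : ℕ)))).adjugate) c *
        a (m + ((c : ℕ) + (b : ℕ))) := by
  set H := (Matrix.of fun b c : Fin n => a (m + ((b : ℕ) + (c : ℕ)))) with hH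
  have h1 : Matrix.vecMul (Matrix.vecMul (fun b : Fin n => G b) H.adjugate) H =
      fun b : Fin n => H.det * G b := by
    rw [Matrix.vecMul_vecMul, Matrix.adjugate_mul]
    funext j
    simp [Matrix.vecMul_smul]
  have h2 := congrFun h1 b
  rw [← h2]
  rfl

theorem BL (n : ℕ) (f : LinfD) (W : ℝ → ℂ) (hfW : f =ᵐ[discArea] fun z => W ‖z‖) (m : ℕ) :
    ∃ κ : Fin n → ℂ, ∀ h ∈ polyB n, hank (mom (fun z => W ‖z‖)) n m *
      ∫ z, (h : L2D) z * conj z ^ m ∂discArea =
      ∑ c, κ c * ∫ z, W ‖z‖ * (h : L2D) z * (conj z ^ (m + (c : ℕ)) * z ^ (c : ℕ)) ∂discArea := by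
  set a : ℕ → ℂ := fun k => mom (fun z => W ‖z‖) k with ha
  set G : ℕ → ℂ := fun b => mom (fun _ => 1) ((m + b : ℕ) : ℂ) with hG
  set κ : Fin n → ℂ := Matrix.vecMul (fun b : Fin n => G b)
      (Matrix.of fun b c : Fin n => a (m + ((b : ℕ) + (c : ℕ)))).adjugate with hκ
  refine ⟨κ, ?_⟩
  set φ : L2D →L[ℂ] ℂ := hank (mom (fun z => W ‖z‖)) n m • innerSL ℂ (mono m 0) -
    ∑ c : Fin n, κ c • innerSL ℂ ((wm_memLp f W hfW (m + (c : ℕ)) c).toLp _) with hφ
  have hφe : ∀ h : L2D, φ h = hank (mom (fun z => W ‖z‖)) n m *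
      ∫ z, (h : L2D) z * conj z ^ m ∂discArea -
      ∑ c : Fin n, κ c * ∫ z, W ‖z‖ * (h : L2D) z *
        (conj z ^ (m + (c : ℕ)) * z ^ (c : ℕ)) ∂discArea := by
    intro h
    rw [hφ]
    simp only [sub_apply, smul_apply,
      sum_apply, innerSL_apply_apply, smul_eq_mul]
    congr 1
    · congr 1
      rw [inner_int]
      apply integral_congr_ae
      filter_upwards [mono_ae m 0] with z hz
      rw [hz]
      simp
    · apply Finset.sum_congr rfl
      intro c _
      congr 1
      rw [inner_int]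
      apply integral_congr_ae
      filter_upwards [(wm_memLp f W hfW (m + (c : ℕ)) c).coeFn_toLp] with z hz
      rw [hz, map_mul, map_mul, map_pow, map_pow, Complex.conj_conj, Complex.conj_conj]
      ring
  have hker : polyB n ≤ LinearMap.ker (φ : L2D →ₗ[ℂ] ℂ) := by
    unfold polyB
    apply Submodule.topologicalClosure_minimal _ _ φ.isClosed_ker
    rw [Submodule.span_le]
    rintro h ⟨p, b, hb, hh⟩
    show φ h = 0
    rw [hφe, sub_eq_zero]
    have h1 : ∫ z, (h : L2D) z * conj z ^ m ∂discArea =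
        ∫ z, (fun _ : ℝ => (1:ℂ)) ‖z‖ * (z ^ p * conj z ^ (m + b)) ∂discArea := by
      apply integral_congr_ae
      filter_upwards [hh] with z hz
      rw [hz, pow_add]
      ring
    have h2 : ∀ c : ℕ, ∫ z, W ‖z‖ * (h : L2D) z * (conj z ^ (m + c) * z ^ c) ∂discArea =
        ∫ z, W ‖z‖ * (z ^ (p + c) * conj z ^ (m + (c + b))) ∂discArea := by
      intro c
      apply integral_congr_ae
      filter_upwards [hh] with z hz
      rw [hz, pow_add, pow_add, pow_add, pow_add]
      ring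
    rw [h1]
    simp_rw [h2]
    by_cases hp : p = m + b
    · have h3 := block_alg n a G m ⟨b, hb⟩
      have h4 : hank (mom (fun z => W ‖z‖)) n m =
          (Matrix.of fun b c : Fin n => a (m + ((b : ℕ) + (c : ℕ)))).det := by
        unfold hank
        congr 1
        ext i j
        simp only [Matrix.of_apply, ha]
        congr 1
        push_cast
        ring
      rw [hp, rad_diag, h4]
      refine h3.trans ?_
      apply Finset.sum_congr rfl
      intro c _
      congr 1
      have h5 : m + b + (c : ℕ) = m + ((c : ℕ) + b) := by ring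
      rw [h5, rad_diag]
    · rw [rad_orth (fun _ => 1) p (m + b) hp, mul_zero]
      symm
      apply Finset.sum_eq_zero
      intro c _
      rw [rad_orth W (p + (c : ℕ)) (m + ((c : ℕ) + b)) (by omega), mul_zero]
  intro h hh
  have h1 : φ h = 0 := hker hh
  rw [hφe, sub_eq_zero] at h1
  exact h1

/-- conjugate symbol -/
theorem conj_ex (f : LinfD) : ∃ fb : LinfD, fb =ᵐ[discArea] fun z => conj (f z) :=
  ⟨(Lp.memLp f).star.toLp _, (Lp.memLp f).star.coeFn_toLp⟩

/-- abstract final statement -/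
theorem final (n : ℕ) (hn : 1 ≤ n) (hmem : ∀ a b, b < n → mono a b ∈ A)
    (hBL : ∀ (f : LinfD) (W : ℝ → ℂ) (_ : f =ᵐ[discArea] fun z => W ‖z‖) (m : ℕ),
      ∃ κ : Fin n → ℂ, ∀ h ∈ A, hank (mom (fun z => W ‖z‖)) n m *
      ∫ z, (h : L2D) z * conj z ^ m ∂discArea =
      ∑ c, κ c * ∫ z, W ‖z‖ * (h : L2D) z * (conj z ^ (m + (c : ℕ)) * z ^ (c : ℕ)) ∂discArea)
    (f g : LinfD)
    (hrad : (∃ W : ℝ → ℂ, f =ᵐ[discArea] fun z => W ‖z‖) ∨
      (∃ W : ℝ → ℂ, g =ᵐ[discArea] fun z => W ‖z‖))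
    (hfin : FiniteDimensional ℂ (LinearMap.range (toep A f ∘ₗ toep A g))) :
    f = 0 ∨ g = 0 := by
  have hs := star_det A (toep A f ∘ₗ toep A g)
  set r := Module.finrank ℂ (LinearMap.range (toep A f ∘ₗ toep A g)) with hr
  rcases hrad with ⟨W, hW⟩ | ⟨W, hW⟩
  · rcases hil_core A n hn f g W hW hmem (hBL f W hW) r hs with h | h
    · left
      apply Lp.ext
      filter_upwards [hW, h, Lp.coeFn_zero ℂ ∞ discArea] with z h1 h2 h3
      rw [h1, h2, h3]
      rfl
    · right
      apply Lp.ext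
      filter_upwards [h, Lp.coeFn_zero ℂ ∞ discArea] with z h2 h3
      rw [h2, h3]
      rfl
  · obtain ⟨fb, hfb⟩ := conj_ex f
    obtain ⟨gb, hgb⟩ := conj_ex g
    have hgW : gb =ᵐ[discArea] fun z => (fun t => conj (W t)) ‖z‖ := by
      filter_upwards [hgb, hW] with z h1 h2
      rw [h1, h2]
    rcases hil_core A n hn gb fb (fun t => conj (W t)) hgW hmem (hBL gb (fun t => conj (W t)) hgW) r (by
      intro u v
      have h1 := hs v u
      have h2 : (Matrix.of fun i j => inner ℂ (v j) (toep A gb (toep A fb (u i)))) =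
          (Matrix.of fun i j => inner ℂ (u j) ((toep A f ∘ₗ toep A g) (v i))).conjTranspose := by
        ext i j
        rw [Matrix.conjTranspose_apply]
        simp only [Matrix.of_apply, LinearMap.comp_apply]
        rw [toep_adj A f fb hfb, toep_adj A g gb hgb]
        have h3 := toep_adj A f fb hfb
        have h4 := toep_adj A g gb hgb
        exact (inner_conj_symm (𝕜 := ℂ) (E := A) _ _).symm
      rw [h2, Matrix.det_conjTranspose, h1, star_zero]) with h | h
    · right
      apply Lp.ext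
      filter_upwards [hW, h, Lp.coeFn_zero ℂ ∞ discArea] with z h1 h2 h3
      rw [h1, h3]
      simpa using h2
    · left
      apply Lp.ext
      filter_upwards [h, hfb, Lp.coeFn_zero ℂ ∞ discArea] with z h2 h1 h3
      rw [h3]
      rw [h1] at h2
      simpa using h2

end V1171.TP
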