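import Mathlib

set_option autoImplicit false

/-! A finite rank theorem of Luecking type for integrable densities. -/

namespace V1171.TP

open MeasureTheory Metric
open scoped ComplexConjugate

theorem perm_of_prod : ∀ (N : ℕ) (z w : Fin N → ℂ),
    (∏ i, (Polynomial.X - Polynomial.C (z i))) = (∏ i, (Polynomial.X - Polynomial.C (w i))) →
    ∃ σ : Equiv.Perm (Fin N), z = w ∘ σ := by
  intro N
  induction N with
  | zero => intro z w _; exact ⟨1, Subsingleton.elim _ _⟩
  | succ N ih =>
    intro z w h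
    have h1 : Polynomial.eval (z 0) (∏ i, (Polynomial.X - Polynomial.C (w i))) = 0 := by
      rw [← h, Fin.prod_univ_succ]
      simp
    rw [Polynomial.eval_prod, Finset.prod_eq_zero_iff] at h1
    obtain ⟨j, _, hj⟩ := h1
    have hj' : w j = z 0 := by
      simp only [Polynomial.eval_sub, Polynomial.eval_X, Polynomial.eval_C] at hj
      exact (sub_eq_zero.mp hj).symm
    set w' : Fin (N + 1) → ℂ := w ∘ Equiv.swap 0 j with hw'
    have hw0 : w' 0 = z 0 := by simp [hw', hj']
    have h2 : (∏ i, (Polynomial.X - Polynomial.C (w' i))) =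
        (∏ i, (Polynomial.X - Polynomial.C (w i))) :=
      Equiv.prod_comp (Equiv.swap 0 j) (fun i => Polynomial.X - Polynomial.C (w i))
    rw [← h2, Fin.prod_univ_succ, Fin.prod_univ_succ (fun i => Polynomial.X - Polynomial.C (w' i)),
      hw0] at h
    have h3 := mul_left_cancel₀ (Polynomial.X_sub_C_ne_zero (z 0)) h
    obtain ⟨σ, hσ⟩ := ih (fun i => z i.succ) (fun i => w' i.succ) h3
    set τ : Equiv.Perm (Fin (N + 1)) := Equiv.Perm.decomposeFin.symm (0, σ) with hτ
    have hzτ : z = w' ∘ τ := by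
      funext i
      refine Fin.cases ?_ (fun i => ?_) i
      · simp [hτ, hw0]
      · have := congrFun hσ i
        simpa [hτ] using this
    refine ⟨τ.trans (Equiv.swap 0 j), ?_⟩
    rw [hzτ, hw']
    rfl

section Lu

variable (μ : Measure ℂ) [IsFiniteMeasure μ] (N : ℕ)

/-- antisymmetrisation -/
noncomputable def alt (q : MvPolynomial (Fin N) ℂ) (z : Fin N → ℂ) : ℂ :=
  ∑ σ : Equiv.Perm (Fin N), ((Equiv.Perm.sign σ : ℤ) : ℂ) * MvPolynomial.eval (z ∘ σ) q

omit [IsFiniteMeasure μ] in
theorem alt_add (q q' : MvPolynomial (Fin N) ℂ) (z : Fin N → ℂ) :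
    alt N (q + q') z = alt N q z + alt N q' z := by
  unfold alt
  rw [← Finset.sum_add_distrib]
  apply Finset.sum_congr rfl
  intro σ _
  rw [map_add]
  ring

theorem alt_cont (q : MvPolynomial (Fin N) ℂ) : Continuous (alt N q) := by
  unfold alt
  apply continuous_finsetSum
  intro σ _
  apply continuous_const.mul
  exact (MvPolynomial.continuous_eval q).comp (by fun_prop)

theorem ae_ball (hb : ∀ᵐ z ∂μ, ‖z‖ ≤ 1) :
    ∀ᵐ z ∂(Measure.pi fun _ : Fin N => μ), ∀ i, ‖z i‖ ≤ 1 := by
  rw [ae_all_iff]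
  intro i
  exact (Measure.quasiMeasurePreserving_eval (fun _ : Fin N => μ) i).ae hb

theorem W_int (w : ℂ → ℂ) (hw : Integrable w μ) :
    Integrable (fun z : Fin N → ℂ => ∏ i, w (z i)) (Measure.pi fun _ => μ) :=
  Integrable.fintype_prod (fun _ => hw)

theorem intg (w : ℂ → ℂ) (hw : Integrable w μ) (hb : ∀ᵐ z ∂μ, ‖z‖ ≤ 1) (φ : (Fin N → ℂ) → ℂ)
    (hφ : Continuous φ) :
    Integrable (fun z : Fin N → ℂ => (∏ i, w (z i)) * φ z) (Measure.pi fun _ => μ) := by
  have hc : IsCompact (Set.univ.pi fun _ : Fin N => closedBall (0:ℂ) 1) :=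
    isCompact_univ_pi fun _ => isCompact_closedBall _ _
  obtain ⟨C, hC⟩ := hc.exists_bound_of_continuousOn hφ.continuousOn
  have hW := W_int μ N w hw
  refine (hW.norm.mul_const C).mono' (hW.aestronglyMeasurable.mul hφ.aestronglyMeasurable) ?_
  filter_upwards [ae_ball μ N hb] with z hz
  rw [norm_mul]
  apply mul_le_mul_of_nonneg_left _ (norm_nonneg _)
  apply hC
  intro i _
  rw [mem_closedBall_zero_iff]
  exact hz i

theorem int_alt (w : ℂ → ℂ) (hw : Integrable w μ) (hb : ∀ᵐ z ∂μ, ‖z‖ ≤ 1)
    (hdet : ∀ l m : Fin N → ℕ,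
      (Matrix.of fun i j => ∫ z, w z * (z ^ l i * conj z ^ m j) ∂μ).det = 0)
    (p q : MvPolynomial (Fin N) ℂ) :
    ∫ z, (∏ i, w (z i)) * (MvPolynomial.eval z p * conj (alt N q z)) ∂(Measure.pi fun _ => μ) = 0 := by
  have hcp : ∀ p : MvPolynomial (Fin N) ℂ, Continuous fun z : Fin N → ℂ => MvPolynomial.eval z p :=
    fun p => MvPolynomial.continuous_eval p
  have hca : ∀ q : MvPolynomial (Fin N) ℂ, Continuous fun z : Fin N → ℂ => conj (alt N q z) :=
    fun q => Complex.continuous_conj.comp (alt_cont N q)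
  have hI : ∀ p q : MvPolynomial (Fin N) ℂ, Integrable (fun z : Fin N → ℂ => (∏ i, w (z i)) *
      (MvPolynomial.eval z p * conj (alt N q z))) (Measure.pi fun _ => μ) := fun p q =>
    intg μ N w hw hb (fun z => MvPolynomial.eval z p * conj (alt N q z)) ((hcp p).mul (hca q))
  induction p using MvPolynomial.induction_on' with
  | add p p' hp hp' =>
    have : ∀ z : Fin N → ℂ, (∏ i, w (z i)) * (MvPolynomial.eval z (p + p') * conj (alt N q z)) =
        (∏ i, w (z i)) * (MvPolynomial.eval z p * conj (alt N q z)) +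
        (∏ i, w (z i)) * (MvPolynomial.eval z p' * conj (alt N q z)) := by
      intro z; rw [map_add]; ring
    simp_rw [this]
    rw [integral_add (hI p q) (hI p' q), hp, hp', add_zero]
  | monomial l c =>
    induction q using MvPolynomial.induction_on' with
    | add q q' hq hq' =>
      have : ∀ z : Fin N → ℂ, (∏ i, w (z i)) *
          (MvPolynomial.eval z (MvPolynomial.monomial l c) * conj (alt N (q + q') z)) =
          (∏ i, w (z i)) * (MvPolynomial.eval z (MvPolynomial.monomial l c) * conj (alt N q z)) +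
          (∏ i, w (z i)) * (MvPolynomial.eval z (MvPolynomial.monomial l c) * conj (alt N q' z)) := by
        intro z; rw [alt_add, map_add]; ring
      simp_rw [this]
      rw [integral_add (hI _ q) (hI _ q'), hq, hq', add_zero]
    | monomial m d =>
      have h1 : ∀ z : Fin N → ℂ, (∏ i, w (z i)) *
          (MvPolynomial.eval z (MvPolynomial.monomial l c) *
            conj (alt N (MvPolynomial.monomial m d) z)) =
          ∑ σ : Equiv.Perm (Fin N), (c * conj d * ((Equiv.Perm.sign σ : ℤ) : ℂ)) *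
            ∏ k, (w (z k) * (z k ^ l k * conj (z k) ^ m (σ.symm k))) := by
        intro z
        unfold alt
        rw [map_sum, Finset.mul_sum, Finset.mul_sum]
        apply Finset.sum_congr rfl
        intro σ _
        rw [map_mul, MvPolynomial.eval_monomial, MvPolynomial.eval_monomial,
          Finsupp.prod_fintype _ _ (fun _ => pow_zero _), Finsupp.prod_fintype _ _ (fun _ => pow_zero _),
          map_mul, map_prod, Finset.prod_mul_distrib, Finset.prod_mul_distrib]
        have h2 : ∏ i, conj ((z ∘ σ) i ^ m i) = ∏ k, conj (z k) ^ m (σ.symm k) := by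
          rw [← Equiv.prod_comp σ (fun k => conj (z k) ^ m (σ.symm k))]
          apply Finset.prod_congr rfl
          intro i _
          rw [map_pow, Equiv.symm_apply_apply]
          rfl
        have h3 : conj (((Equiv.Perm.sign σ : ℤ) : ℂ)) = ((Equiv.Perm.sign σ : ℤ) : ℂ) := by
          exact map_intCast (starRingEnd ℂ) _
        rw [h2, h3]
        ring
      simp_rw [h1]
      rw [integral_finsetSum]
      · have h4 : ∀ σ : Equiv.Perm (Fin N), ∫ z : Fin N → ℂ,
            (c * conj d * ((Equiv.Perm.sign σ : ℤ) : ℂ)) *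
            ∏ k, (w (z k) * (z k ^ l k * conj (z k) ^ m (σ.symm k))) ∂(Measure.pi fun _ => μ) =
            (c * conj d) * (((Equiv.Perm.sign σ : ℤ) : ℂ) *
              ∏ i, ∫ z, w z * (z ^ l (σ i) * conj z ^ m i) ∂μ) := by
          intro σ
          rw [integral_const_mul]
          rw [integral_fintype_prod_eq_prod (fun k z => w z * (z ^ l k * conj z ^ m (σ.symm k)))]
          rw [← Equiv.prod_comp σ]
          simp_rw [Equiv.symm_apply_apply]
          ring
        rw [Finset.sum_congr rfl fun σ _ => h4 σ, ← Finset.mul_sum]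
        have h5 := hdet (fun i => l i) (fun i => m i)
        rw [Matrix.det_apply'] at h5
        simp only [Matrix.of_apply] at h5
        rw [h5, mul_zero]
      · intro σ _
        apply Integrable.const_mul
        have h6 : ∀ z : Fin N → ℂ, ∏ k, (w (z k) * (z k ^ l k * conj (z k) ^ m (σ.symm k))) =
            (∏ i, w (z i)) * ∏ k, (z k ^ l k * conj (z k) ^ m (σ.symm k)) := fun z =>
          Finset.prod_mul_distrib
        simp_rw [h6]
        apply intg μ N w hw hb
        fun_prop

/-- the Vandermonde polynomial -/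
noncomputable def vdm : MvPolynomial (Fin N) ℂ :=
  (Matrix.of fun i j : Fin N => (MvPolynomial.X i : MvPolynomial (Fin N) ℂ) ^ (j : ℕ)).det

omit [IsFiniteMeasure μ] in
theorem eval_vdm (z : Fin N → ℂ) : MvPolynomial.eval z (vdm N) = (Matrix.vandermonde z).det := by
  unfold vdm
  rw [RingHom.map_det]
  congr 1
  ext i j
  simp [Matrix.vandermonde]

theorem alt_vdm (q : MvPolynomial (Fin N) ℂ)
    (hq : ∀ (σ : Equiv.Perm (Fin N)) (z : Fin N → ℂ), MvPolynomial.eval (z ∘ σ) q = MvPolynomial.eval z q)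
    (z : Fin N → ℂ) : alt N (vdm N * q) z =
      (Fintype.card (Equiv.Perm (Fin N)) : ℂ) * ((Matrix.vandermonde z).det * MvPolynomial.eval z q) := by
  unfold alt
  have h : ∀ σ : Equiv.Perm (Fin N), ((Equiv.Perm.sign σ : ℤ) : ℂ) *
      MvPolynomial.eval (z ∘ σ) (vdm N * q) = (Matrix.vandermonde z).det * MvPolynomial.eval z q := by
    intro σ
    rw [map_mul, hq, eval_vdm]
    have h1 : Matrix.vandermonde (z ∘ σ) = (Matrix.vandermonde z).submatrix σ id := by
      ext i j
      simp [Matrix.vandermonde]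
    rw [h1, Matrix.det_permute]
    have h2 : ((Equiv.Perm.sign σ : ℤ) : ℂ) * ((Equiv.Perm.sign σ : ℤ) : ℂ) = 1 := by
      rcases Int.units_eq_one_or (Equiv.Perm.sign σ) with h | h <;> rw [h] <;> simp
    calc _ = (((Equiv.Perm.sign σ : ℤ) : ℂ) * ((Equiv.Perm.sign σ : ℤ) : ℂ)) *
        ((Matrix.vandermonde z).det * MvPolynomial.eval z q) := by ring
      _ = _ := by rw [h2, one_mul]
  rw [Finset.sum_congr rfl fun σ _ => h σ, Finset.sum_const, Finset.card_univ, nsmul_eq_mul]

/-- the symmetric density -/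
noncomputable def wsym (w : ℂ → ℂ) (z : Fin N → ℂ) : ℂ :=
  (∏ i, w (z i)) * ((Matrix.vandermonde z).det * conj (Matrix.vandermonde z).det)

theorem int_sym (w : ℂ → ℂ) (hw : Integrable w μ) (hb : ∀ᵐ z ∂μ, ‖z‖ ≤ 1)
    (hdet : ∀ l m : Fin N → ℕ,
      (Matrix.of fun i j => ∫ z, w z * (z ^ l i * conj z ^ m j) ∂μ).det = 0)
    (p q : MvPolynomial (Fin N) ℂ)
    (hq : ∀ (σ : Equiv.Perm (Fin N)) (z : Fin N → ℂ), MvPolynomial.eval (z ∘ σ) q = MvPolynomial.eval z q) :
    ∫ z, wsym N w z * (MvPolynomial.eval z p * conj (MvPolynomial.eval z q))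
      ∂(Measure.pi fun _ => μ) = 0 := by
  have h := int_alt μ N w hw hb hdet (vdm N * p) (vdm N * q)
  have hN : (Fintype.card (Equiv.Perm (Fin N)) : ℂ) ≠ 0 := by
    exact_mod_cast Fintype.card_ne_zero
  have h1 : ∀ z : Fin N → ℂ, (∏ i, w (z i)) *
      (MvPolynomial.eval z (vdm N * p) * conj (alt N (vdm N * q) z)) =
      (Fintype.card (Equiv.Perm (Fin N)) : ℂ) *
        (wsym N w z * (MvPolynomial.eval z p * conj (MvPolynomial.eval z q))) := by
    intro z
    rw [alt_vdm N q hq, map_mul, eval_vdm, map_mul, map_mul, Complex.conj_natCast]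
    unfold wsym
    ring
  simp_rw [h1] at h
  rw [integral_const_mul] at h
  exact (mul_eq_zero.mp h).resolve_left hN

end Lu

end V1171.TP
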