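import Pool.Agent.V1171.TP.Lue

set_option autoImplicit false

namespace V1171.TP

open MeasureTheory Metric Topology
open scoped ComplexConjugate

/-- points of the closed polydisc -/
abbrev Zt (N : ℕ) : Type := Fin N → closedBall (0:ℂ) 1

def und (N : ℕ) (z : Zt N) : Fin N → ℂ := fun i => (z i : ℂ)

theorem und_cont (N : ℕ) : Continuous (und N) := by
  unfold und
  fun_prop

theorem clamp_mem (z : ℂ) : ((max 1 ‖z‖)⁻¹ : ℝ) • z ∈ closedBall (0:ℂ) 1 := by
  rw [mem_closedBall_zero_iff, norm_smul, norm_inv, Real.norm_eq_abs]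
  have h1 : 0 < max 1 ‖z‖ := lt_max_of_lt_left one_pos
  rw [abs_of_pos h1, inv_mul_le_iff₀ h1, mul_one]
  exact le_max_right _ _

/-- radial retraction to the closed polydisc -/
noncomputable def pr (N : ℕ) (z : Fin N → ℂ) : Zt N := fun i => ⟨((max 1 ‖z i‖)⁻¹ : ℝ) • z i, clamp_mem _⟩

theorem pr_cont (N : ℕ) : Continuous (pr N) := by
  unfold pr
  apply continuous_pi
  intro i
  apply Continuous.subtype_mk
  have h1 : Continuous fun z : Fin N → ℂ => (max 1 ‖z i‖)⁻¹ := by
    apply Continuous.inv₀ (by fun_prop)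
    intro z
    exact (lt_max_of_lt_left one_pos).ne'
  have h2 : Continuous fun z : Fin N → ℂ => z i := by fun_prop
  exact h1.smul h2

theorem und_pr (N : ℕ) (z : Fin N → ℂ) (hz : ∀ i, ‖z i‖ ≤ 1) : und N (pr N z) = z := by
  funext i
  unfold und pr
  simp only
  rw [max_eq_left (hz i), inv_one, one_smul]

/-- the symmetric functions `λ ↦ ∏ (λ - z_i)` -/
noncomputable def symf (N : ℕ) (z : Zt N) : ℂ → ℂ := fun lam => ∏ i, (lam - und N z i)

theorem symf_cont (N : ℕ) : Continuous (symf N) := by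
  unfold symf
  apply continuous_pi
  intro lam
  apply continuous_finsetProd
  intro i _
  exact continuous_const.sub ((continuous_apply i).comp (und_cont N))

theorem symf_inj (N : ℕ) (z w : Zt N) (h : symf N z = symf N w) :
    ∃ σ : Equiv.Perm (Fin N), z = w ∘ σ := by
  obtain ⟨σ, hσ⟩ := perm_of_prod N (und N z) (und N w) (by
    apply Polynomial.funext
    intro lam
    have := congrFun h lam
    unfold symf at this
    rw [Polynomial.eval_prod, Polynomial.eval_prod]
    simpa using this)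
  refine ⟨σ, ?_⟩
  funext i
  apply Subtype.ext
  exact congrFun hσ i

/-- the image -/
abbrev Yt (N : ℕ) : Type := Set.range (symf N)

instance (N : ℕ) : CompactSpace (Yt N) := isCompact_iff_compactSpace.mp (isCompact_range (symf_cont N))

noncomputable def piY (N : ℕ) : C(Zt N, Yt N) :=
  ⟨fun z => ⟨symf N z, z, rfl⟩, (symf_cont N).subtype_mk _⟩

noncomputable def evY (N : ℕ) (lam : ℂ) : C(Yt N, ℂ) :=
  ⟨fun y => (y : ℂ → ℂ) lam, (continuous_apply lam).comp continuous_subtype_val⟩

theorem piY_quot (N : ℕ) : Topology.IsQuotientMap (piY N) := by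
  apply IsClosedMap.isQuotientMap
  · exact (piY N).continuous.isClosedMap
  · exact (piY N).continuous
  · rintro ⟨_, z, rfl⟩
    exact ⟨z, rfl⟩

/-- good elements -/
def Good (N : ℕ) (a : C(Yt N, ℂ)) : Prop :=
  ∃ p q : MvPolynomial (Fin N) ℂ,
    (∀ (σ : Equiv.Perm (Fin N)) (z : Fin N → ℂ), MvPolynomial.eval (z ∘ σ) q = MvPolynomial.eval z q) ∧
    ∀ z : Zt N, a (piY N z) = MvPolynomial.eval (und N z) p * conj (MvPolynomial.eval (und N z) q)

noncomputable def plam (N : ℕ) (lam : ℂ) : MvPolynomial (Fin N) ℂ :=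
  ∏ i, (MvPolynomial.C lam - MvPolynomial.X i)

theorem eval_plam (N : ℕ) (lam : ℂ) (z : Fin N → ℂ) :
    MvPolynomial.eval z (plam N lam) = ∏ i, (lam - z i) := by
  unfold plam
  rw [map_prod]
  simp

theorem good_mul (N : ℕ) (a b : C(Yt N, ℂ)) (ha : Good N a) (hb : Good N b) : Good N (a * b) := by
  obtain ⟨p, q, hq, h⟩ := ha
  obtain ⟨p', q', hq', h'⟩ := hb
  refine ⟨p * p', q * q', fun σ z => by rw [map_mul, map_mul, hq, hq'], fun z => ?_⟩
  rw [ContinuousMap.mul_apply, h, h', map_mul, map_mul, map_mul]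
  ring

theorem good_closure (N : ℕ) (a : C(Yt N, ℂ))
    (ha : a ∈ Submonoid.closure (Set.range (evY N) ∪ star (Set.range (evY N)))) : Good N a := by
  induction ha using Submonoid.closure_induction with
  | mem x hx =>
    rcases hx with ⟨lam, rfl⟩ | hx
    · refine ⟨plam N lam, 1, fun σ z => by simp, fun z => ?_⟩
      rw [eval_plam]
      simp only [map_one, mul_one]
      rfl
    · rw [Set.mem_star] at hx
      obtain ⟨lam, hlam⟩ := hx
      refine ⟨1, plam N lam, fun σ z => ?_, fun z => ?_⟩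
      · rw [eval_plam, eval_plam]
        exact Equiv.prod_comp σ (fun i => lam - z i)
      · have h1 : x = star (evY N lam) := by rw [hlam, star_star]
        rw [h1, eval_plam]
        simp only [map_one, one_mul]
        rfl
  | one => exact ⟨1, 1, fun σ z => by simp, fun z => by simp⟩
  | mul x y _ _ hx hy => exact good_mul N x y hx hy

section L2

variable (μ : Measure ℂ) [IsFiniteMeasure μ] (N : ℕ)

theorem wsym_int (w : ℂ → ℂ) (hw : Integrable w μ) (hb : ∀ᵐ z ∂μ, ‖z‖ ≤ 1) :
    Integrable (wsym N w) (Measure.pi fun _ => μ) := by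
  unfold wsym
  apply intg μ N w hw hb (fun z => (Matrix.vandermonde z).det * conj (Matrix.vandermonde z).det)
  have h : Continuous fun z : Fin N → ℂ => (Matrix.vandermonde z).det := by
    have : (fun z : Fin N → ℂ => (Matrix.vandermonde z).det) = fun z => MvPolynomial.eval z (vdm N) := by
      funext z; rw [eval_vdm]
    rw [this]
    exact MvPolynomial.continuous_eval _
  exact h.mul (Complex.continuous_conj.comp h)

theorem phi_int (w : ℂ → ℂ) (hw : Integrable w μ) (hb : ∀ᵐ z ∂μ, ‖z‖ ≤ 1) (φ : C(Zt N, ℂ)) :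
    Integrable (fun z => φ (pr N z) * wsym N w z) (Measure.pi fun _ => μ) := by
  have h1 := wsym_int μ N w hw hb
  refine (h1.norm.const_mul ‖φ‖).mono'
    ((φ.continuous.comp (pr_cont N)).aestronglyMeasurable.mul h1.aestronglyMeasurable) ?_
  apply Filter.Eventually.of_forall
  intro z
  rw [norm_mul]
  exact mul_le_mul_of_nonneg_right (φ.norm_coe_le_norm _) (norm_nonneg _)

theorem phi_bound (w : ℂ → ℂ) (hw : Integrable w μ) (hb : ∀ᵐ z ∂μ, ‖z‖ ≤ 1) (φ : C(Zt N, ℂ)) :
    ‖∫ z, φ (pr N z) * wsym N w z ∂(Measure.pi fun _ => μ)‖ ≤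
      ‖φ‖ * ∫ z, ‖wsym N w z‖ ∂(Measure.pi fun _ => μ) := by
  rw [← integral_const_mul]
  apply norm_integral_le_of_norm_le ((wsym_int μ N w hw hb).norm.const_mul ‖φ‖)
  apply Filter.Eventually.of_forall
  intro z
  rw [norm_mul]
  exact mul_le_mul_of_nonneg_right (φ.norm_coe_le_norm _) (norm_nonneg _)

theorem sym_zero (w : ℂ → ℂ) (hw : Integrable w μ) (hb : ∀ᵐ z ∂μ, ‖z‖ ≤ 1)
    (hdet : ∀ l m : Fin N → ℕ,
      (Matrix.of fun i j => ∫ z, w z * (z ^ l i * conj z ^ m j) ∂μ).det = 0)
    (φ : C(Zt N, ℂ)) (hφ : ∀ (σ : Equiv.Perm (Fin N)) (z : Zt N), φ (z ∘ σ) = φ z) :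
    ∫ z, φ (pr N z) * wsym N w z ∂(Measure.pi fun _ => μ) = 0 := by
  have hfac : Function.FactorsThrough φ (piY N) := by
    intro z z' h
    have h1 : symf N z = symf N z' := congrArg Subtype.val h
    obtain ⟨σ, hσ⟩ := symf_inj N z z' h1
    rw [hσ, hφ]
  set ψ : C(Yt N, ℂ) := (piY_quot N).lift φ hfac with hψ
  have hψφ : ∀ z, ψ (piY N z) = φ z := by
    intro z
    have := (piY_quot N).lift_comp φ hfac
    exact congrArg (fun F : C(Zt N, ℂ) => F z) this
  -- the star algebra
  set A : StarSubalgebra ℂ C(Yt N, ℂ) := StarAlgebra.adjoin ℂ (Set.range (evY N)) with hA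
  have hsep : A.SeparatesPoints := by
    intro y y' hne
    have h1 : (y : ℂ → ℂ) ≠ (y' : ℂ → ℂ) := fun h => hne (Subtype.ext h)
    obtain ⟨lam, hlam⟩ := Function.ne_iff.mp h1
    refine ⟨evY N lam, ⟨evY N lam, ?_, rfl⟩, hlam⟩
    exact StarAlgebra.subset_adjoin ℂ _ ⟨lam, rfl⟩
  have hdense := ContinuousMap.starSubalgebra_topologicalClosure_eq_top_of_separatesPoints A hsep
  have hspan : ∀ a ∈ Submodule.span ℂ (Submonoid.closure
      (Set.range (evY N) ∪ star (Set.range (evY N))) : Set C(Yt N, ℂ)),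
      ∫ z, (a.comp (piY N)) (pr N z) * wsym N w z ∂(Measure.pi fun _ => μ) = 0 := by
    intro a ha
    induction ha using Submodule.span_induction with
    | mem x hx =>
      obtain ⟨p, q, hq, h2⟩ := good_closure N x hx
      refine Eq.trans ?_ (int_sym μ N w hw hb hdet p q hq)
      apply integral_congr_ae
      filter_upwards [ae_ball μ N hb] with z hz
      rw [ContinuousMap.comp_apply, h2, und_pr N z hz]
      ring
    | zero => simp
    | add x y _ _ hx hy =>
      have h3 : ∀ z, ((x + y).comp (piY N)) (pr N z) * wsym N w z =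
          (x.comp (piY N)) (pr N z) * wsym N w z + (y.comp (piY N)) (pr N z) * wsym N w z := by
        intro z
        simp only [ContinuousMap.comp_apply, ContinuousMap.add_apply]
        ring
      simp_rw [h3]
      rw [integral_add (phi_int μ N w hw hb _) (phi_int μ N w hw hb _), hx, hy, add_zero]
    | smul c x _ hx =>
      have h3 : ∀ z, ((c • x).comp (piY N)) (pr N z) * wsym N w z =
          c * ((x.comp (piY N)) (pr N z) * wsym N w z) := by
        intro z
        simp only [ContinuousMap.comp_apply, ContinuousMap.smul_apply, smul_eq_mul]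
        ring
      simp_rw [h3]
      rw [integral_const_mul, hx, mul_zero]
  have hzero : ∀ a ∈ A, ∫ z, (a.comp (piY N)) (pr N z) * wsym N w z ∂(Measure.pi fun _ => μ) = 0 := by
    intro a ha
    apply hspan
    rw [← Algebra.adjoin_eq_span, Subalgebra.mem_toSubmodule, ← StarAlgebra.adjoin_toSubalgebra]
    exact ha
  have hfin : ∀ ε > 0, ‖∫ z, φ (pr N z) * wsym N w z ∂(Measure.pi fun _ => μ)‖ ≤
      ε * ∫ z, ‖wsym N w z‖ ∂(Measure.pi fun _ => μ) := by
    intro ε hε
    have hmem : ψ ∈ closure (A : Set C(Yt N, ℂ)) := by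
      have : ψ ∈ A.topologicalClosure := by rw [hdense]; trivial
      exact this
    obtain ⟨a, haA, hdist⟩ := Metric.mem_closure_iff.mp hmem ε hε
    have h1 : ∫ z, φ (pr N z) * wsym N w z ∂(Measure.pi fun _ => μ) =
        ∫ z, ((ψ - a).comp (piY N)) (pr N z) * wsym N w z ∂(Measure.pi fun _ => μ) := by
      have h2 : ∀ z, ((ψ - a).comp (piY N)) (pr N z) * wsym N w z =
          φ (pr N z) * wsym N w z - (a.comp (piY N)) (pr N z) * wsym N w z := by
        intro z
        simp only [ContinuousMap.comp_apply, ContinuousMap.sub_apply, hψφ]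
        ring
      simp_rw [h2]
      rw [integral_sub (phi_int μ N w hw hb φ) (phi_int μ N w hw hb _), hzero a haA, sub_zero]
    rw [h1]
    refine (phi_bound μ N w hw hb _).trans ?_
    apply mul_le_mul_of_nonneg_right _ (integral_nonneg fun _ => norm_nonneg _)
    have h3 : ‖(ψ - a).comp (piY N)‖ ≤ ‖ψ - a‖ := by
      rw [ContinuousMap.norm_le _ (norm_nonneg _)]
      intro z
      exact (ψ - a).norm_coe_le_norm _
    rw [dist_eq_norm] at hdist
    exact h3.trans hdist.le
  have h0 : ‖∫ z, φ (pr N z) * wsym N w z ∂(Measure.pi fun _ => μ)‖ ≤ 0 := by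
    apply le_of_forall_pos_le_add
    intro ε hε
    set B := ∫ z, ‖wsym N w z‖ ∂(Measure.pi fun _ : Fin N => μ) with hB
    have hB0 : 0 ≤ B := integral_nonneg fun _ => norm_nonneg _
    have h1 := hfin (ε / (B + 1)) (by positivity)
    refine h1.trans ?_
    rw [zero_add, div_mul_eq_mul_div, div_le_iff₀ (by positivity)]
    nlinarith
  exact norm_le_zero_iff.mp h0

omit [IsFiniteMeasure μ] in
theorem wsym_perm (w : ℂ → ℂ) (σ : Equiv.Perm (Fin N)) (z : Fin N → ℂ) :
    wsym N w (z ∘ σ) = wsym N w z := by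
  unfold wsym
  have h1 : Matrix.vandermonde (z ∘ σ) = (Matrix.vandermonde z).submatrix σ id := by
    ext i j
    simp [Matrix.vandermonde]
  have h2 : ((Equiv.Perm.sign σ : ℤ) : ℂ) * ((Equiv.Perm.sign σ : ℤ) : ℂ) = 1 := by
    rcases Int.units_eq_one_or (Equiv.Perm.sign σ) with h | h <;> rw [h] <;> simp
  have h3 : conj (((Equiv.Perm.sign σ : ℤ) : ℂ)) = ((Equiv.Perm.sign σ : ℤ) : ℂ) :=
    map_intCast (starRingEnd ℂ) _
  have h4 : ∏ i, w ((z ∘ σ) i) = ∏ i, w (z i) := Equiv.prod_comp σ (fun i => w (z i))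
  rw [h1, Matrix.det_permute, map_mul, h3, h4]
  calc _ = (((Equiv.Perm.sign σ : ℤ) : ℂ) * ((Equiv.Perm.sign σ : ℤ) : ℂ)) *
      ((∏ i, w (z i)) * ((Matrix.vandermonde z).det * conj (Matrix.vandermonde z).det)) := by ring
    _ = _ := by rw [h2, one_mul]

theorem mp_perm (σ : Equiv.Perm (Fin N)) :
    MeasurePreserving (fun z : Fin N → ℂ => z ∘ σ) (Measure.pi fun _ => μ) (Measure.pi fun _ => μ) := by
  have h := measurePreserving_piCongrLeft (fun _ : Fin N => μ) σ.symm
  have h2 : (MeasurableEquiv.piCongrLeft (fun _ : Fin N => ℂ) σ.symm : (Fin N → ℂ) → (Fin N → ℂ)) =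
      fun z => z ∘ σ := by
    funext z
    funext i
    have := MeasurableEquiv.piCongrLeft_apply_apply σ.symm (β := fun _ : Fin N => ℂ) z (σ i)
    simpa using this
  rw [h2] at h
  exact h

theorem all_zero (w : ℂ → ℂ) (hw : Integrable w μ) (hb : ∀ᵐ z ∂μ, ‖z‖ ≤ 1)
    (hdet : ∀ l m : Fin N → ℕ,
      (Matrix.of fun i j => ∫ z, w z * (z ^ l i * conj z ^ m j) ∂μ).det = 0)
    (φ : C(Zt N, ℂ)) :
    ∫ z, φ (pr N z) * wsym N w z ∂(Measure.pi fun _ => μ) = 0 := by
  have hcomp : ∀ σ : Equiv.Perm (Fin N), Continuous (fun z : Zt N => φ (z ∘ σ)) := fun σ =>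
    φ.continuous.comp (by fun_prop)
  set φS : C(Zt N, ℂ) := ⟨fun z => ∑ σ : Equiv.Perm (Fin N), φ (z ∘ σ),
    continuous_finsetSum _ fun σ _ => hcomp σ⟩ with hφS
  have h1 := sym_zero μ N w hw hb hdet φS (by
    intro τ z
    show ∑ σ : Equiv.Perm (Fin N), φ ((z ∘ τ) ∘ σ) = ∑ σ : Equiv.Perm (Fin N), φ (z ∘ σ)
    rw [← Equiv.sum_comp (Equiv.mulLeft τ) (fun σ : Equiv.Perm (Fin N) => φ (z ∘ σ))]
    rfl)
  have h2 : ∀ σ : Equiv.Perm (Fin N),
      ∫ z, φ ((pr N z) ∘ σ) * wsym N w z ∂(Measure.pi fun _ => μ) =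
      ∫ z, φ (pr N z) * wsym N w z ∂(Measure.pi fun _ => μ) := by
    intro σ
    have hemb : MeasurableEmbedding (fun z : Fin N → ℂ => z ∘ σ) := by
      have h2 : (MeasurableEquiv.piCongrLeft (fun _ : Fin N => ℂ) σ.symm :
          (Fin N → ℂ) → (Fin N → ℂ)) = fun z => z ∘ σ := by
        funext z
        funext i
        have := MeasurableEquiv.piCongrLeft_apply_apply σ.symm (β := fun _ : Fin N => ℂ) z (σ i)
        simpa using this
      rw [← h2]
      exact (MeasurableEquiv.piCongrLeft (fun _ : Fin N => ℂ) σ.symm).measurableEmbedding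
    have h3 := (mp_perm μ N σ).integral_comp hemb (fun z => φ (pr N z) * wsym N w z)
    rw [← h3]
    apply integral_congr_ae
    apply Filter.Eventually.of_forall
    intro z
    show φ ((pr N z) ∘ σ) * wsym N w z = φ (pr N (z ∘ σ)) * wsym N w (z ∘ σ)
    rw [wsym_perm]
    rfl
  have h3 : ∀ z, φS (pr N z) * wsym N w z =
      ∑ σ : Equiv.Perm (Fin N), φ ((pr N z) ∘ σ) * wsym N w z := by
    intro z
    rw [← Finset.sum_mul]
    rfl
  simp_rw [h3] at h1
  rw [integral_finsetSum] at h1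
  · simp_rw [h2] at h1
    rw [Finset.sum_const, Finset.card_univ, nsmul_eq_mul] at h1
    have hN : (Fintype.card (Equiv.Perm (Fin N)) : ℂ) ≠ 0 := by
      exact_mod_cast Fintype.card_ne_zero
    exact (mul_eq_zero.mp h1).resolve_left hN
  · intro σ _
    exact phi_int μ N w hw hb ⟨fun z => φ (z ∘ σ), hcomp σ⟩

theorem wsym_zero (w : ℂ → ℂ) (hw : Integrable w μ) (hb : ∀ᵐ z ∂μ, ‖z‖ ≤ 1)
    (hdet : ∀ l m : Fin N → ℕ,
      (Matrix.of fun i j => ∫ z, w z * (z ^ l i * conj z ^ m j) ∂μ).det = 0) :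
    ∀ᵐ z ∂(Measure.pi fun _ : Fin N => μ), wsym N w z = 0 := by
  apply ae_eq_zero_of_integral_contDiff_smul_eq_zero (wsym_int μ N w hw hb).locallyIntegrable
  intro g hg _
  have h1 := all_zero μ N w hw hb hdet ⟨fun z => ((g (und N z) : ℝ) : ℂ), by
    exact Complex.continuous_ofReal.comp (hg.continuous.comp (und_cont N))⟩
  rw [← h1]
  apply integral_congr_ae
  filter_upwards [ae_ball μ N hb] with z hz
  show g z • wsym N w z = ((g (und N (pr N z)) : ℝ) : ℂ) * wsym N w z
  rw [und_pr N z hz, Complex.real_smul]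

end L2

/-- area measure on the unit disc -/
noncomputable def area : Measure ℂ := volume.restrict (ball (0:ℂ) 1)

instance : IsFiniteMeasure area := by
  refine ⟨?_⟩
  unfold area
  rw [Measure.restrict_apply_univ]
  exact measure_ball_lt_top

theorem area_ae : ∀ᵐ z ∂area, ‖z‖ < 1 := by
  unfold area
  filter_upwards [ae_restrict_mem measurableSet_ball] with z hz
  rwa [mem_ball_zero_iff] at hz

/-- **Finite rank theorem for integrable densities.** -/
theorem luecking (r : ℕ) (w : ℂ → ℂ) (hw : Integrable w area)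
    (hdet : ∀ l m : Fin (r + 1) → ℕ,
      (Matrix.of fun i j => ∫ z, w z * (z ^ l i * conj z ^ m j) ∂area).det = 0) :
    ∀ᵐ z ∂area, w z = 0 := by
  have hb : ∀ᵐ z ∂area, ‖z‖ ≤ 1 := by
    filter_upwards [area_ae] with z hz
    exact hz.le
  set μ := area with hμ
  set N := r + 1 with hN
  have h1 := wsym_zero μ N w hw hb hdet
  -- the diagonals are null sets
  have hdiag : ∀ᵐ z ∂(Measure.pi fun _ : Fin N => μ), Function.Injective z := by
    have hac2 : (Measure.pi fun _ : Fin N => μ) ≪ (volume : Measure (Fin N → ℂ)) := by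
      rw [hμ]
      unfold area
      rw [← Measure.restrict_pi_pi (fun _ : Fin N => (volume : Measure ℂ)) (fun _ => ball (0:ℂ) 1)]
      exact Measure.absolutelyContinuous_of_le Measure.restrict_le_self
    apply hac2.ae_le
    have h2 : ∀ i j : Fin N, i ≠ j → ∀ᵐ z : Fin N → ℂ, z i ≠ z j := by
      intro i j hij
      set L : (Fin N → ℂ) →ₗ[ℝ] ℂ := (LinearMap.proj i : (Fin N → ℂ) →ₗ[ℝ] ℂ) - LinearMap.proj j
        with hL
      have h3 : LinearMap.ker L ≠ ⊤ := by
        intro h
        have h4 : (Pi.single i (1:ℂ) : Fin N → ℂ) ∈ LinearMap.ker L := by rw [h]; trivial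
        rw [LinearMap.mem_ker] at h4
        simp [hL, Pi.single_eq_of_ne (Ne.symm hij)] at h4
      have h5 := Measure.addHaar_submodule (volume : Measure (Fin N → ℂ)) (LinearMap.ker L) h3
      rw [ae_iff]
      refine measure_mono_null ?_ h5
      intro z hz
      simp only [not_not, Set.mem_ofPred_eq] at hz
      show z ∈ LinearMap.ker L
      rw [LinearMap.mem_ker]
      simp [hL, hz]
    have h6 : ∀ᵐ z : Fin N → ℂ, ∀ i j : Fin N, i ≠ j → z i ≠ z j := by
      rw [ae_all_iff]
      intro i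
      rw [ae_all_iff]
      intro j
      by_cases hij : i = j
      · exact Filter.Eventually.of_forall fun z h => absurd hij h
      · filter_upwards [h2 i j hij] with z hz _
        exact hz
    filter_upwards [h6] with z hz i j hij
    by_contra hne
    exact hz i j hne hij
  have h2 : ∀ᵐ z ∂(Measure.pi fun _ : Fin N => μ), ∏ i, w (z i) = 0 := by
    filter_upwards [h1, hdiag] with z hz hinj
    unfold wsym at hz
    have h3 : (Matrix.vandermonde z).det ≠ 0 := Matrix.det_vandermonde_ne_zero_iff.mpr hinj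
    have h4 : conj (Matrix.vandermonde z).det ≠ 0 := by
      rwa [Ne, map_eq_zero]
    exact (mul_eq_zero.mp hz).resolve_right (mul_ne_zero h3 h4)
  have h3 : ∫ z, ∏ i, (‖w (z i)‖ : ℝ) ∂(Measure.pi fun _ : Fin N => μ) = 0 := by
    apply integral_eq_zero_of_ae
    filter_upwards [h2] with z hz
    rw [← norm_prod, hz, norm_zero]
    rfl
  rw [integral_fintype_prod_eq_prod (fun (_ : Fin N) (z : ℂ) => ‖w z‖)] at h3
  rw [Finset.prod_const, Finset.card_univ, Fintype.card_fin] at h3
  have h4 : ∫ z, ‖w z‖ ∂μ = 0 := eq_zero_of_pow_eq_zero h3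
  rw [integral_eq_zero_iff_of_nonneg (fun _ => norm_nonneg _) hw.norm] at h4
  filter_upwards [h4] with z hz
  exact norm_eq_zero.mp hz

end V1171.TP
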